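import Pool.Agent.H26.PK.Rank

/-!
Almost invariant equivariant functions: their values at infinity.
-/

set_option autoImplicit false
set_option linter.unusedSectionVars false

namespace Pool.Agent.H26.PD.PK

open Pool.Agent.Helper386.PD3 Pool.Agent.H26.PD.PN
open scoped Classical Matrix

noncomputable section

variable {G : Type} [Group G] {S : Subgroup G} {n m : ℕ} {w : G →* ℤˣ}

theorem qS_mul (x t : G) : qS S (x * t) = t⁻¹ • qS S x := by
  change (((x * t)⁻¹ : G) : G ⧸ S) = ((t⁻¹ * x⁻¹ : G) : G ⧸ S)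
  rw [mul_inv_rev]

theorem qS_left {s : G} (hs : s ∈ S) (x : G) : qS S (s * x) = qS S x :=
  (qS_eq.2 ⟨s, hs, rfl⟩).symm

/-- edges outside a set of cosets -/
def r0 (S : Subgroup G) (T : Finset G) (F : Set (G ⧸ S)) (x y : G) : Prop :=
  ∃ t ∈ T, qS S x ∉ F ∧ y = x * t

theorem gen_left {T : Finset G} {F : Set (G ⧸ S)} {s : G} (hs : s ∈ S) {x y : G}
    (h : Relation.EqvGen (r0 S T F) x y) : Relation.EqvGen (r0 S T F) (s * x) (s * y) := by
  induction h with
  | rel x y h =>
    obtain ⟨t, ht, hx, rfl⟩ := h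
    exact Relation.EqvGen.rel _ _ ⟨t, ht, by rwa [qS_left hs], (mul_assoc _ _ _).symm⟩
  | refl x => exact Relation.EqvGen.refl _
  | symm x y _ ih => exact Relation.EqvGen.symm _ _ ih
  | trans x y z _ _ ih1 ih2 => exact Relation.EqvGen.trans _ _ _ ih1 ih2

theorem gen_const {T : Finset G} {F : Set (G ⧸ S)} {M : Type} {f : G → M}
    (hf : ∀ t ∈ T, ∀ x, qS S x ∉ F → f (x * t) = f x) {x y : G}
    (h : Relation.EqvGen (r0 S T F) x y) : f x = f y := by
  induction h with
  | rel x y h =>
    obtain ⟨t, ht, hx, rfl⟩ := h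
    exact (hf t ht x hx).symm
  | refl x => rfl
  | symm x y _ ih => exact ih.symm
  | trans x y z _ _ ih1 ih2 => exact ih1.trans ih2

/-- a set is almost invariant if it is so for generators -/
theorem almost_of_gens {T : Finset G} (hT : Subgroup.closure (T : Set G) = ⊤) {A : Set G}
    (hA : ∀ t ∈ T, {x | ¬ (x * t ∈ A ↔ x ∈ A)}.Finite) (g : G) :
    {x | ¬ (x * g ∈ A ↔ x ∈ A)}.Finite := by
  have hg : g ∈ Subgroup.closure (T : Set G) := by rw [hT]; trivial
  induction hg using Subgroup.closure_induction with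
  | mem t ht => exact hA t ht
  | one =>
    convert Set.finite_empty
    ext x
    rw [Set.mem_ofPred_eq, mul_one]
    simp
  | mul g h _ _ hg hh =>
    refine (hg.union (hh.image fun x => x * g⁻¹)).subset ?_
    intro x hx
    by_cases h1 : (x * g ∈ A ↔ x ∈ A)
    · right
      refine ⟨x * g, fun h2 => hx ?_, mul_inv_cancel_right x g⟩
      rw [← mul_assoc]
      exact h2.trans h1
    · left
      exact h1
  | inv g _ hg =>
    refine (hg.image fun x => x * g).subset ?_
    intro x hx
    refine ⟨x * g⁻¹, fun h2 => hx ?_, inv_mul_cancel_right x g⟩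
    rw [inv_mul_cancel_right] at h2
    exact h2.symm

/-- **Values at infinity.** -/
theorem ends_data {T : Finset G} (hT : Subgroup.closure (T : Set G) = ⊤) (hOE : OE G)
    (hGi : Infinite G) (hS : ∃ s ∈ S, s ≠ 1) {F : Set (G ⧸ S)} (hF : F.Finite) :
    ∃ L : Finset (G × G), (∀ q ∈ L, q.2 ∈ S ∧ q.2 ≠ 1) ∧
      ∀ {M : Type} [AddCommGroup M] {a : G → Module.End ℤ M} {f : G → M}, f ∈ EqS S a →
        (∀ t ∈ T, ∀ x, qS S x ∉ F → f (x * t) = f x) →
        (∀ q ∈ L, a q.2 (f q.1) = f q.1) ∧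
        ((∀ q ∈ L, f q.1 = 0) → ∃ F' : Set (G ⧸ S), F'.Finite ∧ ∀ x, f x ≠ 0 → qS S x ∈ F') := by
  let E : G → G → Prop := Relation.EqvGen (r0 S T F)
  let F' : Set (G ⧸ S) := {qS S 1} ∪ F ∪ ⋃ t ∈ (T : Set G), (fun q => t⁻¹ • q) '' F
  have hF' : F'.Finite :=
    ((Set.finite_singleton _).union hF).union (T.finite_toSet.biUnion fun t _ => hF.image _)
  -- every class meets `F'`
  have hmeet : ∀ x, ∃ x', E x x' ∧ qS S x' ∈ F' := by
    intro x
    by_contra hcon
    push Not at hcon
    have h1 : ∀ g : G, ∀ y, E x y → E x (y * g) := by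
      intro g
      have hg : g ∈ Subgroup.closure (T : Set G) := by rw [hT]; trivial
      induction hg using Subgroup.closure_induction'' with
      | mem t ht =>
        intro y hy
        refine Relation.EqvGen.trans _ _ _ hy (Relation.EqvGen.rel _ _ ⟨t, ht, ?_, rfl⟩)
        intro h
        exact hcon y hy (Or.inl (Or.inr h))
      | inv_mem t ht =>
        intro y hy
        refine Relation.EqvGen.trans _ _ _ hy (Relation.EqvGen.symm _ _
          (Relation.EqvGen.rel _ _ ⟨t, ht, ?_, by rw [inv_mul_cancel_right]⟩))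
        intro h
        refine hcon y hy (Or.inr (Set.mem_biUnion ht ⟨_, h, ?_⟩))
        change t⁻¹ • qS S (y * t⁻¹) = qS S y
        rw [← qS_mul, inv_mul_cancel_right]
      | one =>
        intro y hy
        rwa [mul_one]
      | mul a b _ _ ha hb =>
        intro y hy
        rw [← mul_assoc]
        exact hb _ (ha y hy)
    have h2 := h1 x⁻¹ x (Relation.EqvGen.refl _)
    rw [mul_inv_cancel] at h2
    exact hcon 1 h2 (Or.inl (Or.inl rfl))
  -- classes with trivial stabilizer are finite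
  have hfin : ∀ x, (∀ s ∈ S, E (s * x) x → s = 1) → {y | E x y}.Finite := by
    intro x hx
    have hx' : ∀ s ∈ S, ∀ y, E x y → E x (s * y) → s = 1 := by
      intro s hs y h1 h2
      refine hx s hs ?_
      exact Relation.EqvGen.trans _ _ _ (gen_left hs h1) (Relation.EqvGen.symm _ _ h2)
    have hinj : Set.InjOn (qS S) {y | E x y} := by
      intro y hy z hz hyz
      obtain ⟨s, hs, rfl⟩ := qS_eq.1 hyz
      rw [hx' s hs y hy hz, one_mul]
    have hfF : ∀ F'' : Set (G ⧸ S), F''.Finite → {y | E x y ∧ qS S y ∈ F''}.Finite := by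
      intro F'' hF''
      refine Set.Finite.of_finite_image (hF''.subset ?_) (hinj.mono fun y hy => hy.1)
      rintro _ ⟨y, hy, rfl⟩
      exact hy.2
    have hai : ∀ g, {y | ¬ (y * g ∈ {y | E x y} ↔ y ∈ {y | E x y})}.Finite := by
      refine almost_of_gens hT fun t ht => ?_
      refine ((hfF F hF).union ((hfF _ (hF.image fun q => t⁻¹ • q)).image
        fun y => y * t⁻¹)).subset ?_
      intro y hy
      have hyF : qS S y ∈ F := by
        by_contra hyF
        apply hy
        have h1 : E y (y * t) := Relation.EqvGen.rel _ _ ⟨t, ht, hyF, rfl⟩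
        exact ⟨fun h2 => Relation.EqvGen.trans _ _ _ h2 (Relation.EqvGen.symm _ _ h1),
          fun h2 => Relation.EqvGen.trans _ _ _ h2 h1⟩
      by_cases h1 : E x y
      · exact Or.inl ⟨h1, hyF⟩
      · right
        have h2 : E x (y * t) := by
          by_contra h3
          exact hy ⟨fun h => absurd h h3, fun h => absurd h h1⟩
        refine ⟨y * t, ⟨h2, ⟨_, hyF, ?_⟩⟩, mul_inv_cancel_right y t⟩
        exact (qS_mul y t).symm
    rcases hOE _ hai with h | h
    · exact h
    · exfalso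
      obtain ⟨s, hs, hs1⟩ := hS
      have h1 : {y | E x y}.Finite := by
        refine Set.Finite.of_finite_image (f := fun y => s * y) (h.subset ?_)
          fun y _ z _ hyz => mul_left_cancel hyz
        rintro _ ⟨y, hy, rfl⟩ h2
        exact hs1 (hx' s hs y hy h2)
      have h2 : (Set.univ : Set G).Finite := by
        rw [← Set.union_compl_self {y | E x y}]
        exact h1.union h
      exact Set.infinite_univ h2
  -- the list
  let B : Set (G ⧸ S) := {c | c ∈ F' ∧ ∃ s ∈ S, s ≠ 1 ∧ E (s * (c.out)⁻¹) (c.out)⁻¹}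
  have hB : B.Finite := hF'.subset fun c hc => hc.1
  have hch : ∀ c : G ⧸ S, ∃ s, c ∈ B → s ∈ S ∧ s ≠ 1 ∧ E (s * (c.out)⁻¹) (c.out)⁻¹ := by
    intro c
    by_cases hc : c ∈ B
    · obtain ⟨-, s, hs⟩ := hc
      exact ⟨s, fun _ => ⟨hs.1, hs.2.1, hs.2.2⟩⟩
    · exact ⟨1, fun h => absurd h hc⟩
  choose σ hσ using hch
  refine ⟨hB.toFinset.image fun c => ((c.out)⁻¹, σ c), ?_, ?_⟩
  · intro q hq
    obtain ⟨c, hc, rfl⟩ := Finset.mem_image.1 hq
    obtain ⟨h1, h2, -⟩ := hσ c (hB.mem_toFinset.1 hc)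
    exact ⟨h1, h2⟩
  · intro M _ a f hf hconst
    constructor
    · intro q hq
      obtain ⟨c, hc, rfl⟩ := Finset.mem_image.1 hq
      obtain ⟨h1, h2, h3⟩ := hσ c (hB.mem_toFinset.1 hc)
      change a (σ c) (f (c.out)⁻¹) = f (c.out)⁻¹
      rw [← hf _ h1]
      exact gen_const hconst h3
    · intro h0
      refine ⟨⋃ c ∈ F' \ B, qS S '' {y | E (c.out)⁻¹ y}, ?_, ?_⟩
      · refine (hF'.subset Set.sdiff_subset).biUnion fun c hc => Set.Finite.image _ ?_
        refine hfin _ fun s hs hE => ?_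
        by_contra hne
        exact hc.2 ⟨hc.1, s, hs, hne, hE⟩
      · intro x hx
        obtain ⟨x', hxx', hx'⟩ := hmeet x
        obtain ⟨s, hs, hsx⟩ := qS_eq.1 (qS_out (qS S x'))
        have h1 : f x = a s (f ((qS S x').out)⁻¹) := by
          rw [← hf s hs, ← hsx]
          exact gen_const hconst hxx'
        have h2 : qS S x' ∉ B := by
          intro hB'
          apply hx
          rw [h1, h0 (((qS S x').out)⁻¹, σ (qS S x'))
            (Finset.mem_image.2 ⟨_, hB.mem_toFinset.2 hB', rfl⟩), map_zero]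
        refine Set.mem_biUnion (x := qS S x') ⟨hx', h2⟩ ⟨s⁻¹ * x, ?_, qS_left (S.inv_mem hs) x⟩
        have h3 : E (s⁻¹ * x') (s⁻¹ * x) :=
          gen_left (S.inv_mem hs) (Relation.EqvGen.symm _ _ hxx')
        have h4 : s⁻¹ * x' = ((qS S x').out)⁻¹ := by
          rw [inv_mul_eq_iff_eq_mul]
          exact hsx
        rw [h4] at h3
        exact h3

end

end Pool.Agent.H26.PD.PK
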