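import Pool.Agent.H26.PN.Proj

/-!
Projective modules over the group ring of a residually finite `p`-group: a mod `p` criterion for
finite generation.
-/

set_option autoImplicit false
set_option linter.unusedSectionVars false

namespace Pool.Agent.H26.PD.PK

open Pool.Agent.Helper386.PD3 Pool.Agent.H26.PD.PN
open scoped Classical Matrix

noncomputable section

variable {T : Type} [Group T]

/-- a nonzero invariant form -/
theorem exists_inv {p : ℕ} [hp : Fact p.Prime] {P : Type} [Group P] [Finite P]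
    (hP : IsPGroup p P) (X : Submodule (RR P) (RR P)) (hne : X ≠ ⊥) :
    ∃ φ : X →+ ZMod p, φ ≠ 0 ∧ ∀ (g : P) (x : X), φ (gof g • x) = φ x := by
  have hnt : Nontrivial X := Submodule.nontrivial_iff_ne_bot.2 hne
  have hfin : Module.Finite ℤ (RR P) := by
    refine Module.Finite.equiv (M := P →₀ ℤ)
      ((MonoidAlgebra.coeffAddEquiv (R := ℤ) (M := P)).symm.toIntLinearEquiv)
  have hfinX : Module.Finite ℤ X := by
    have : IsNoetherian ℤ (RR P) := inferInstance
    exact Module.Finite.of_injective (X.subtype.toAddMonoidHom.toIntLinearMap)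
      Subtype.val_injective
  have htf : Module.IsTorsionFree ℤ (RR P) := by
    have h1 : Module.IsTorsionFree ℤ (P →₀ ℤ) := inferInstance
    refine Function.Injective.moduleIsTorsionFree
      (MonoidAlgebra.coeffAddEquiv (R := ℤ) (M := P)) (AddEquiv.injective _) ?_
    intro c x
    exact map_zsmul _ _ _
  have htfX : Module.IsTorsionFree ℤ X := by
    refine Function.Injective.moduleIsTorsionFree (X.subtype) Subtype.val_injective ?_
    intro c x
    exact map_zsmul _ _ _
  have hfree : Module.Free ℤ X := inferInstance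
  let b := Module.Free.chooseBasis ℤ X
  have hne' : Nonempty (Module.Free.ChooseBasisIndex ℤ X) := b.index_nonempty
  let φ0 : X →ₗ[ℤ] ZMod p := b.constr ℤ (fun _ => 1)
  have hφ0 : φ0 ≠ 0 := by
    intro h0
    have h1 := LinearMap.congr_fun h0 (b hne'.some)
    rw [b.constr_basis, LinearMap.zero_apply] at h1
    exact one_ne_zero h1
  have hfinα : Finite (X →ₗ[ℤ] ZMod p) := by
    have : Finite (Module.Free.ChooseBasisIndex ℤ X → ZMod p) := inferInstance
    exact Finite.of_equiv _ (b.constr ℤ).toEquiv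
  let _ : MulAction P (X →ₗ[ℤ] ZMod p) :=
    { smul := fun g φ => φ.comp ((DistribSMul.toAddMonoidHom X (gof g⁻¹ : RR P)).toIntLinearMap)
      one_smul := by
        intro φ
        refine LinearMap.ext fun x => ?_
        change φ (gof (1 : P)⁻¹ • x) = φ x
        rw [inv_one, gof_one, one_smul]
      mul_smul := by
        intro g h φ
        refine LinearMap.ext fun x => ?_
        change φ (gof (g * h)⁻¹ • x) = φ (gof h⁻¹ • gof g⁻¹ • x)
        rw [mul_inv_rev, gof_mul, mul_smul] }
  have hsm : ∀ (g : P) (φ : X →ₗ[ℤ] ZMod p) (x : X), (g • φ) x = φ (gof g⁻¹ • x) :=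
    fun g φ x => rfl
  obtain ⟨φ, hφ, hφ1⟩ := hP.exists_fixed_point_of_prime_dvd_card_of_fixed_point
    (X →ₗ[ℤ] ZMod p) (by
      have h1 : addOrderOf φ0 = p := by
        refine addOrderOf_eq_prime ?_ hφ0
        refine LinearMap.ext fun x => ?_
        rw [LinearMap.smul_apply, LinearMap.zero_apply, nsmul_eq_mul, CharP.cast_eq_zero, zero_mul]
      exact (dvd_of_eq h1.symm).trans (addOrderOf_dvd_natCard φ0)) (a := 0) (by
      intro g
      refine LinearMap.ext fun x => ?_
      rw [hsm]
      rfl)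
  refine ⟨φ.toAddMonoidHom, ?_, ?_⟩
  · intro h
    apply hφ1
    exact (LinearMap.ext fun x => DFunLike.congr_fun h x).symm
  · intro g x
    have h1 := LinearMap.congr_fun (hφ g⁻¹) x
    rw [hsm, inv_inv] at h1
    exact h1

/-- A left ideal of the group ring of a finite `p`-group is zero if it is generated by elements
of the form `∑ r y` with `y` in the ideal and `r` in the ideal generated by `p` and the
augmentation ideal. -/
theorem ideal_zero {p : ℕ} [hp : Fact p.Prime] {P : Type} [Group P] [Finite P]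
    (hP : IsPGroup p P) (X : Submodule (RR P) (RR P)) (S : Set (RR P))
    (hX : X = Submodule.span (RR P) S)
    (hS : ∀ x ∈ S, ∃ (ι : Type) (F : Finset ι) (r : ι → RR P) (y : ι → RR P),
      (∀ i, (p : ℤ) ∣ eps (r i)) ∧ (∀ i, y i ∈ X) ∧ x = ∑ i ∈ F, r i • y i) : X = ⊥ := by
  by_contra hne
  obtain ⟨φ, hφ1, hinv⟩ := exists_inv hP X hne
  apply hφ1
  have hact : ∀ (r : RR P) (x : X), φ (r • x) = eps r • φ x :=
    fun r x => eps_act φ hinv r x
  have hp0 : ∀ (k : ℤ) (c : ZMod p), (p : ℤ) ∣ k → k • c = 0 := by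
    intro k c hk
    rw [zsmul_eq_mul, (ZMod.intCast_zmod_eq_zero_iff_dvd k p).2 hk, zero_mul]
  have hzero : ∀ x ∈ X, ∀ hx : x ∈ X, φ ⟨x, hx⟩ = 0 := by
    intro x hx
    have hx' : x ∈ Submodule.span (RR P) S := hX ▸ hx
    induction hx' using Submodule.span_induction with
    | mem x hxS =>
      intro hx
      obtain ⟨ι, F, r, y, hr, hy, hxy⟩ := hS x hxS
      have h1 : (⟨x, hx⟩ : X) = ∑ i ∈ F, r i • (⟨y i, hy i⟩ : X) := by
        apply Subtype.ext
        rw [Submodule.coe_sum]
        exact hxy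
      rw [h1, map_sum]
      exact Finset.sum_eq_zero fun i _ => by rw [hact, hp0 _ _ (hr i)]
    | zero =>
      intro hx
      exact map_zero φ
    | add x y hx1 hy1 ihx ihy =>
      intro hx
      have h1 : x ∈ X := hX ▸ hx1
      have h2 : y ∈ X := hX ▸ hy1
      have h3 : (⟨x + y, hx⟩ : X) = ⟨x, h1⟩ + ⟨y, h2⟩ := rfl
      rw [h3, map_add, ihx h1 h1, ihy h2 h2, add_zero]
    | smul r x hx1 ih =>
      intro hx
      have h1 : x ∈ X := hX ▸ hx1
      have h3 : (⟨r • x, hx⟩ : X) = r • ⟨x, h1⟩ := rfl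
      rw [h3, hact, ih h1 h1, smul_zero]
  ext x
  rw [AddMonoidHom.zero_apply]
  exact hzero x.1 x.2 x.2

/-- **The mod `p` criterion.** -/
theorem finite_of_modp {p : ℕ} [hp : Fact p.Prime] (hT : ResP p T) {K : Type} [AddCommGroup K]
    [Module (RR T) K] (hK : Module.Projective (RR T) K) (N : ℕ)
    (hN : ∀ x : Fin (N + 1) → K, ∃ c : Fin (N + 1) → ℤ, (∃ k, ¬ (p : ℤ) ∣ c k) ∧
      ∀ φ : K →ₗ[RR T] RR T, (p : ℤ) ∣ eps (φ (∑ k, c k • x k))) : Module.Finite (RR T) K := by
  obtain ⟨s, hs⟩ := Module.projective_def'.1 hK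
  let V : K → (K →₀ ZMod p) := fun x =>
    (s x).mapRange (fun r => ((eps r : ℤ) : ZMod p)) (by rw [map_zero, Int.cast_zero])
  have hV : ∀ x y, V x y = ((eps (s x y) : ℤ) : ZMod p) := fun x y => Finsupp.mapRange_apply
  have hVadd : ∀ x x', V (x + x') = V x + V x' := by
    intro x x'
    ext y
    rw [Finsupp.add_apply, hV, hV, hV, map_add, Finsupp.add_apply, map_add, Int.cast_add]
  have hVz : ∀ (k : ℤ) x, V (k • x) = (k : ZMod p) • V x := by
    intro k x
    ext y
    rw [Finsupp.smul_apply, hV, hV, map_zsmul, Finsupp.smul_apply, map_zsmul, smul_eq_mul,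
      smul_eq_mul, Int.cast_mul]
  obtain ⟨b, hb, hspan, hli⟩ := exists_linearIndependent (ZMod p) (Set.range V)
  have hbfin : b.Finite := by
    by_contra hinf
    let f : ℕ ↪ b := Set.Infinite.natEmbedding b hinf
    have hx : ∀ k : ℕ, ∃ x, V x = f k := fun k => hb (f k).2
    choose x hx using hx
    obtain ⟨c, ⟨k0, hk0⟩, hc⟩ := hN fun k => x k
    have h1 : LinearIndependent (ZMod p)
        (fun k : Fin (N + 1) => ((f (k : ℕ) : b) : K →₀ ZMod p)) :=
      hli.comp (fun k : Fin (N + 1) => f (k : ℕ)) fun k k' h => Fin.ext (f.injective h)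
    apply hk0
    rw [← ZMod.intCast_zmod_eq_zero_iff_dvd]
    refine Fintype.linearIndependent_iff.1 h1 (fun k => (c k : ZMod p)) ?_ k0
    ext y
    rw [Finsupp.finsetSum_apply, Finsupp.coe_zero, Pi.zero_apply]
    have h2 := hc ((Finsupp.lapply y).comp s)
    rw [← ZMod.intCast_zmod_eq_zero_iff_dvd] at h2
    rw [← h2, map_sum, map_sum, Int.cast_sum]
    refine Finset.sum_congr rfl fun k _ => ?_
    rw [← hx, Finsupp.smul_apply, hV, smul_eq_mul, map_zsmul, map_zsmul, smul_eq_mul, Int.cast_mul]
    rfl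
  have hsel : ∀ v : K →₀ ZMod p, ∃ x, v ∈ b → V x = v := by
    intro v
    by_cases hv : v ∈ b
    · obtain ⟨x, hx⟩ := hb hv
      exact ⟨x, fun _ => hx⟩
    · exact ⟨0, fun h => absurd h hv⟩
  choose X hX using hsel
  let J : Finset K := hbfin.toFinset.biUnion fun v => (s (X v)).support
  -- reduction modulo `p` and the augmentation ideal
  have hred : ∀ x : K, ∃ x' : K, V x' = 0 ∧ ∀ y ∉ J, s x y = s x' y := by
    intro x
    have h1 : V x ∈ Submodule.span (ZMod p) b := by
      rw [hspan]
      exact Submodule.subset_span ⟨x, rfl⟩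
    have h2 : ∀ v ∈ Submodule.span (ZMod p) b, ∃ z : K, V z = v ∧ ∀ y ∉ J, s z y = 0 := by
      intro v hv
      induction hv using Submodule.span_induction with
      | mem v hv =>
        refine ⟨X v, hX v hv, fun y hy => ?_⟩
        by_contra h
        exact hy (Finset.mem_biUnion.2 ⟨v, hbfin.mem_toFinset.2 hv, Finsupp.mem_support_iff.2 h⟩)
      | zero =>
        refine ⟨0, ?_, fun y _ => by rw [map_zero]; rfl⟩
        ext y
        rw [hV, map_zero, Finsupp.coe_zero, Pi.zero_apply, map_zero, Int.cast_zero]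
        rfl
      | add v v' _ _ hv hv' =>
        obtain ⟨z, hz, hz'⟩ := hv
        obtain ⟨z', hz2, hz2'⟩ := hv'
        refine ⟨z + z', by rw [hVadd, hz, hz2], fun y hy => ?_⟩
        rw [map_add, Finsupp.add_apply, hz' y hy, hz2' y hy, add_zero]
      | smul c v _ hv =>
        obtain ⟨z, hz, hz'⟩ := hv
        refine ⟨(c.cast : ℤ) • z, ?_, fun y hy => ?_⟩
        · rw [hVz, hz, ZMod.intCast_zmod_cast]
        · rw [map_zsmul, Finsupp.smul_apply, hz' y hy, smul_zero]
    obtain ⟨z, hz, hz'⟩ := h2 _ h1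
    refine ⟨x - z, ?_, fun y hy => ?_⟩
    · have h3 := hVadd (x - z) z
      rw [sub_add_cancel, hz] at h3
      exact left_eq_add.1 (by rw [add_comm]; exact h3)
    · rw [map_sub, Finsupp.sub_apply, hz' y hy, sub_zero]
  -- coordinates outside `J` vanish
  have hx : ∀ x y, y ∉ J → s x y = 0 := by
    intro x y hy
    refine resP_inj hT fun P _ _ f hP => ?_
    have h0 := ideal_zero hP
      (Submodule.span (RR P) (Set.range fun x => pf f (s x y)))
      (Set.range fun x => pf f (s x y)) rfl (by
      rintro _ ⟨x, rfl⟩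
      obtain ⟨x', hx', hxx'⟩ := hred x
      have h1 : Finsupp.linearCombination (RR T) id (s x') = x' := LinearMap.congr_fun hs x'
      have h2 : s x' y = ∑ z ∈ (s x').support, s x' z * s z y := by
        have h3 : s x' y = s (Finsupp.linearCombination (RR T) id (s x')) y := by rw [h1]
        rw [h3, Finsupp.linearCombination_apply, Finsupp.sum, map_sum, Finsupp.finsetSum_apply]
        exact Finset.sum_congr rfl fun z _ => by rw [map_smul, Finsupp.smul_apply]; rfl
      refine ⟨K, (s x').support, fun z => pf f (s x' z), fun z => pf f (s z y), ?_, ?_, ?_⟩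
      · intro z
        rw [eps_pf, ← ZMod.intCast_zmod_eq_zero_iff_dvd, ← hV, hx']
        rfl
      · intro z
        exact Submodule.subset_span ⟨z, rfl⟩
      · change pf f (s x y) = _
        rw [hxx' y hy, h2, map_sum]
        exact Finset.sum_congr rfl fun z _ => map_mul _ _ _)
    have h1 : pf f (s x y) ∈ Submodule.span (RR P) (Set.range fun x => pf f (s x y)) :=
      Submodule.subset_span ⟨x, rfl⟩
    rw [h0, Submodule.mem_bot] at h1
    exact h1
  refine ⟨⟨J, ?_⟩⟩
  rw [eq_top_iff]
  intro x _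
  have h1 : Finsupp.linearCombination (RR T) id (s x) = x := LinearMap.congr_fun hs x
  rw [← h1, Finsupp.linearCombination_apply]
  refine Submodule.sum_mem _ fun y hy => Submodule.smul_mem _ _ (Submodule.subset_span ?_)
  by_contra hyJ
  exact (Finsupp.mem_support_iff.1 hy) (hx x y hyJ)

end

end Pool.Agent.H26.PD.PK
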