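import Pool.Agent.H26.PK.Cls
import Pool.Agent.H26.PK.ModP

/-!
Counting over the group ring of a finite `p`-group.
-/

set_option autoImplicit false
set_option linter.unusedSectionVars false

namespace Pool.Agent.H26.PD.PK

open Pool.Agent.Helper386.PD3 Pool.Agent.H26.PD.PN
open scoped Classical Matrix

noncomputable section

variable {T : Type} [Group T] {p : ℕ} [hp : Fact p.Prime] {P : Type} [Group P] [Finite P]

/-- the map to the group algebra of a finite quotient -/
def lvl (p : ℕ) [Fact p.Prime] {T P : Type} [Group T] [Group P] (f : T →* P) :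
    RR T →+* MonoidAlgebra (ZMod p) P :=
  liftR ((MonoidAlgebra.of (ZMod p) P).comp f)

theorem lvl_of (f : T →* P) (t : T) :
    lvl p f (gof t) = MonoidAlgebra.single (f t) (1 : ZMod p) := liftR_of _ _

theorem const_mul (f : T →* P) {a : MonoidAlgebra (ZMod p) P} {c : ZMod p}
    (ha : ∀ x, a.coeff x = c) (r : RR T) (x : P) :
    (a * lvl p f r).coeff x = c * ((eps r : ℤ) : ZMod p) := by
  induction r using rr_ind with
  | h1 g =>
    rw [lvl_of, MonoidAlgebra.coeff_mul_single_apply, ha, eps_of, Int.cast_one]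
  | h2 y z hy hz =>
    rw [map_add, mul_add, map_add, Int.cast_add, mul_add, ← hy, ← hz]
    rfl
  | h3 y hy =>
    rw [map_neg, mul_neg, map_neg, Int.cast_neg, mul_neg, ← hy]
    rfl

instance finite_alg : Finite (MonoidAlgebra (ZMod p) P) := by
  have : Finite (P → ZMod p) := inferInstance
  exact Finite.of_injective (fun a : MonoidAlgebra (ZMod p) P => fun x => a.coeff x) (by
    intro a b h
    apply MonoidAlgebra.coeff_injective
    ext x
    exact congrFun h x)

theorem card_alg : Nat.card (MonoidAlgebra (ZMod p) P) = p ^ Nat.card P := by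
  have e : MonoidAlgebra (ZMod p) P ≃ (P → ZMod p) :=
    { toFun := fun a x => a.coeff x
      invFun := fun g => ⟨Finsupp.equivFunOnFinite.symm g⟩
      left_inv := fun a => by
        apply MonoidAlgebra.coeff_injective
        ext x
        rfl
      right_inv := fun g => by
        funext x
        rfl }
  rw [Nat.card_congr e, Nat.card_fun, Nat.card_eq_fintype_card (α := ZMod p), ZMod.card]

/-- **Nakayama for finite `p`-groups.** -/
theorem inj_level (hP : IsPGroup p P) (f : T →* P) {K : Type} [AddCommGroup K] [Module (RR T) K]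
    {N : ℕ} (x : Fin N → K) (a : Fin N → MonoidAlgebra (ZMod p) P) (ha : a ≠ 0)
    (ha0 : ∀ φ : K →ₗ[RR T] RR T, ∑ k, a k * lvl p f (φ (x k)) = 0) :
    ∃ c : Fin N → ℤ, (∃ k, ¬ (p : ℤ) ∣ c k) ∧
      ∀ φ : K →ₗ[RR T] RR T, (p : ℤ) ∣ eps (φ (∑ k, c k • x k)) := by
  let Z : AddSubgroup (Fin N → MonoidAlgebra (ZMod p) P) :=
    { carrier := {a | ∀ φ : K →ₗ[RR T] RR T, ∑ k, a k * lvl p f (φ (x k)) = 0}
      add_mem' := by
        intro a b ha hb φ
        simp only [Pi.add_apply, add_mul, Finset.sum_add_distrib]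
        rw [ha φ, hb φ, add_zero]
      zero_mem' := by
        intro φ
        simp
      neg_mem' := by
        intro a ha φ
        simp only [Pi.neg_apply, neg_mul, Finset.sum_neg_distrib]
        rw [ha φ, neg_zero] }
  have hZ : ∀ (r : MonoidAlgebra (ZMod p) P) (a : Fin N → MonoidAlgebra (ZMod p) P), a ∈ Z →
      (fun k => r * a k) ∈ Z := by
    intro r a ha φ
    simp only [mul_assoc, ← Finset.mul_sum]
    rw [ha φ, mul_zero]
  let _ : MulAction P Z :=
    { smul := fun g a => ⟨fun k => MonoidAlgebra.single g (1 : ZMod p) * a.1 k, hZ _ _ a.2⟩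
      one_smul := by
        intro a
        apply Subtype.ext
        funext k
        exact one_mul (a.1 k)
      mul_smul := by
        intro g h a
        apply Subtype.ext
        funext k
        change MonoidAlgebra.single (g * h) (1 : ZMod p) * a.1 k =
          MonoidAlgebra.single g (1 : ZMod p) * (MonoidAlgebra.single h (1 : ZMod p) * a.1 k)
        rw [← mul_assoc, MonoidAlgebra.single_mul_single, one_mul] }
  have hsm : ∀ (g : P) (a : Z) (k : Fin N), (g • a).1 k =
      MonoidAlgebra.single g (1 : ZMod p) * a.1 k := fun g a k => rfl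
  obtain ⟨b, hb, hb1⟩ := hP.exists_fixed_point_of_prime_dvd_card_of_fixed_point
    Z (by
      have h1 : addOrderOf (⟨a, ha0⟩ : Z) = p := by
        refine addOrderOf_eq_prime ?_ ?_
        · apply Subtype.ext
          funext k
          apply MonoidAlgebra.coeff_injective
          ext y
          change (p • (a k)).coeff y = 0
          rw [MonoidAlgebra.coeff_smul, Finsupp.smul_apply, nsmul_eq_mul, CharP.cast_eq_zero,
            zero_mul]
        · intro h
          exact ha (congrArg Subtype.val h)
      exact (dvd_of_eq h1.symm).trans (addOrderOf_dvd_natCard _)) (a := 0) (by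
      intro g
      apply Subtype.ext
      funext k
      rw [hsm]
      exact mul_zero _)
  have hconst : ∀ k y, (b.1 k).coeff y = (b.1 k).coeff 1 := by
    intro k y
    have h1 := congrFun (congrArg Subtype.val (hb y)) k
    rw [hsm] at h1
    have h2 : (MonoidAlgebra.single y (1 : ZMod p) * b.1 k).coeff y = (b.1 k).coeff y := by rw [h1]
    rw [MonoidAlgebra.coeff_single_mul_apply, one_mul, inv_mul_cancel] at h2
    exact h2.symm
  refine ⟨fun k => ((b.1 k).coeff 1).cast, ?_, fun φ => ?_⟩
  · by_contra hcon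
    push Not at hcon
    apply hb1
    apply Subtype.ext
    funext k
    apply MonoidAlgebra.coeff_injective
    ext y
    change 0 = (b.1 k).coeff y
    rw [hconst]
    have h1 := (ZMod.intCast_zmod_eq_zero_iff_dvd _ p).2 (hcon k)
    rw [ZMod.intCast_zmod_cast] at h1
    exact h1.symm
  · rw [← ZMod.intCast_zmod_eq_zero_iff_dvd, map_sum, map_sum, Int.cast_sum]
    have h1 : (∑ k, b.1 k * lvl p f (φ (x k))).coeff 1 = 0 := by
      rw [b.2 φ]
      rfl
    have h2 : (∑ k, b.1 k * lvl p f (φ (x k))).coeff 1 =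
        ∑ k, (b.1 k).coeff 1 * ((eps (φ (x k)) : ℤ) : ZMod p) := by
      have h3 : (∑ k, b.1 k * lvl p f (φ (x k))).coeff 1 =
          ∑ k, (b.1 k * lvl p f (φ (x k))).coeff 1 := by
        have h4 := map_sum ((Finsupp.applyAddHom (1 : P)).comp
          (MonoidAlgebra.coeffAddEquiv (R := ZMod p) (M := P)).toAddMonoidHom)
          (fun k => b.1 k * lvl p f (φ (x k))) Finset.univ
        exact h4
      rw [h3]
      exact Finset.sum_congr rfl fun k _ => const_mul f (hconst k) _ _
    rw [h2] at h1
    rw [← h1]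
    refine Finset.sum_congr rfl fun k _ => ?_
    rw [map_zsmul, map_zsmul, smul_eq_mul, Int.cast_mul, ZMod.intCast_zmod_cast]

/-! ## Fixed points -/

variable {G : Type} [Group G] {S : Subgroup G} {w : G →* ℤˣ}

theorem card_fix (f : S →* P) {s : G} (hs : s ∈ S) :
    Nat.card {v : MonoidAlgebra (ZMod p) P // aD w (lvl p f) s v = v} ≤
      p ^ Nat.card (P ⧸ Subgroup.zpowers (f ⟨s, hs⟩)) := by
  set g := f ⟨s, hs⟩ with hg
  have hco : ∀ v : MonoidAlgebra (ZMod p) P, aD w (lvl p f) s v = v →
      ∀ x, ((w s : ℤˣ) : ℤ) • v.coeff (x * g) = v.coeff x := by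
    intro v hv x
    rw [aD_apply _ hs, dg_of, map_zsmul, lvl_of, map_inv, ← hg, mul_smul_comm] at hv
    conv_rhs => rw [← hv]
    change _ = ((w s : ℤˣ) : ℤ) • (v * MonoidAlgebra.single g⁻¹ (1 : ZMod p)).coeff x
    rw [MonoidAlgebra.coeff_mul_single_apply, inv_inv, mul_one]
  have hco' : ∀ v v' : MonoidAlgebra (ZMod p) P, aD w (lvl p f) s v = v →
      aD w (lvl p f) s v' = v' → ∀ x, v.coeff x = v'.coeff x →
      ∀ k : ℕ, v.coeff (x * g ^ k) = v'.coeff (x * g ^ k) := by
    intro v v' hv hv' x hx k
    induction k with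
    | zero => rwa [pow_zero, mul_one]
    | succ k ih =>
      have h1 := hco v hv (x * g ^ k)
      have h2 := hco v' hv' (x * g ^ k)
      rw [← h1, ← h2, mul_assoc, ← pow_succ] at ih
      have h3 : ∀ c : ZMod p, ((w s : ℤˣ) : ℤ) • ((w s : ℤˣ) : ℤ) • c = c := by
        intro c
        rw [smul_smul, ← Units.val_mul, ← sq, Int.units_sq, Units.val_one, one_smul]
      rw [← h3 (v.coeff _), ih, h3]
  have hinj : Function.Injective
      (fun (v : {v : MonoidAlgebra (ZMod p) P // aD w (lvl p f) s v = v})
        (q : P ⧸ Subgroup.zpowers g) => v.1.coeff q.out) := by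
    intro v v' h
    apply Subtype.ext
    apply MonoidAlgebra.coeff_injective
    ext x
    have h1 : (((x : P ⧸ Subgroup.zpowers g).out : P) : P ⧸ Subgroup.zpowers g) = x :=
      QuotientGroup.out_eq' _
    rw [QuotientGroup.eq] at h1
    obtain ⟨k, hk⟩ := (mem_powers_iff_mem_zpowers.2 h1)
    have h2 := hco' v.1 v'.1 v.2 v'.2 _ (congrFun h (x : P ⧸ Subgroup.zpowers g)) k
    have hk' : g ^ k = ((x : P ⧸ Subgroup.zpowers g).out)⁻¹ * x := hk
    rw [hk', mul_inv_cancel_left] at h2
    exact h2
  have h1 := Nat.card_le_card_of_injective _ hinj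
  rwa [Nat.card_fun, Nat.card_eq_fintype_card (α := ZMod p), ZMod.card] at h1

end

end Pool.Agent.H26.PD.PK
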