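import Pool.Agent.H26.PK.ProjK

/-!
Functions with values in a division ring containing the group ring of a subgroup.
-/

set_option autoImplicit false
set_option linter.unusedSectionVars false

namespace Pool.Agent.H26.PD.PK

open Pool.Agent.Helper386.PD3 Pool.Agent.H26.PD.PN
open scoped Classical Matrix

noncomputable section

variable {G : Type} [Group G] {S : Subgroup G} {n m : ℕ} {w : G →* ℤˣ}

/-! ## The universal functions -/

/-- the function of an element of the group ring -/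
def u1 (w : G →* ℤˣ) (S : Subgroup G) (r : RR G) (x : G) : RR S := prH S (r * dg w (gof x))

theorem u1_add (r r' : RR G) (x : G) : u1 w S (r + r') x = u1 w S r x + u1 w S r' x := by
  unfold u1
  rw [add_mul, map_add]

theorem u1_neg (r : RR G) (x : G) : u1 w S (-r) x = -u1 w S r x := by
  unfold u1
  rw [neg_mul, map_neg]

theorem u1_sum {ι : Type} (F : Finset ι) (r : ι → RR G) (x : G) :
    u1 w S (∑ k ∈ F, r k) x = ∑ k ∈ F, u1 w S (r k) x := by
  unfold u1
  rw [Finset.sum_mul, map_sum]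

theorem u1_inc (α : RR S) (r : RR G) (x : G) : u1 w S (inc S α * r) x = α * u1 w S r x := by
  unfold u1
  rw [mul_assoc, prH_inc_mul]

theorem u1_rho (q r : RR G) : rho (RR S) q (u1 w S r) = u1 w S (r * dg w q) := by
  induction q using rr_ind with
  | h1 g =>
    funext x
    rw [rho_of_apply]
    unfold u1
    rw [gof_mul, dg_mul, mul_assoc]
  | h2 x y hx hy =>
    funext z
    rw [map_add, LinearMap.add_apply, Pi.add_apply, hx, hy, dg_add, mul_add, u1_add]
  | h3 x hx =>
    funext z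
    rw [map_neg, LinearMap.neg_apply, Pi.neg_apply, hx, dg_neg, mul_neg, u1_neg]

theorem u1_equiv {s : G} (hs : s ∈ S) (r : RR G) (x : G) :
    u1 w S r (s * x) = u1 w S r x * dg (w.comp S.subtype) (gof ⟨s, hs⟩) := by
  unfold u1
  have h1 : dg w (gof s) = inc S (dg (w.comp S.subtype) (gof (⟨s, hs⟩ : S))) := by
    rw [inc_dg, inc_of]
  rw [gof_mul, dg_mul, h1, ← mul_assoc, prH_mul_inc]

/-- the cochain of a vector -/
def uv (w : G →* ℤˣ) (S : Subgroup G) (v : Fin n → RR G) (j : Fin n) (x : G) : RR S :=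
  u1 w S (v j) x

theorem mv_uv (A : MR G n) (v : Fin n → RR G) : mv A (uv w S v) = uv w S (v ᵥ* dgM w A) := by
  funext i x
  rw [mv_apply, Finset.sum_apply]
  have h1 : ∀ j, rho (RR S) (A i j) (uv w S v j) = u1 w S (v j * dg w (A i j)) :=
    fun j => u1_rho _ _
  rw [Finset.sum_congr rfl fun j _ => congrFun (h1 j) x, ← u1_sum]
  rfl

theorem uv_add (v v' : Fin n → RR G) (j : Fin n) (x : G) :
    uv w S (v + v') j x = uv w S v j x + uv w S v' j x := u1_add _ _ _

/-- decomposition along right cosets -/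
theorem exists_right (S : Subgroup G) (r : RR G) : ∃ F : Finset (G ⧸ S), ∀ F', F ⊆ F' →
    ∑ q ∈ F', inc S (prH S (r * gof q.out)) * gof (q.out)⁻¹ = r := by
  induction r using rr_ind with
  | h1 g =>
    refine ⟨{((g⁻¹ : G) : G ⧸ S)}, fun F' hF' => ?_⟩
    rw [Finset.sum_eq_single ((g⁻¹ : G) : G ⧸ S)]
    · have hm : g * (((g⁻¹ : G) : G ⧸ S).out) ∈ S := by
        have h1 : (((((g⁻¹ : G) : G ⧸ S).out) : G) : G ⧸ S) = ((g⁻¹ : G) : G ⧸ S) :=
          QuotientGroup.out_eq' _
        have h2 := QuotientGroup.eq.1 h1.symm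
        rwa [inv_inv] at h2
      rw [← gof_mul, prH_gof hm, inc_of, ← gof_mul]
      congr 1
      change g * (((g⁻¹ : G) : G ⧸ S).out) * (((g⁻¹ : G) : G ⧸ S).out)⁻¹ = g
      rw [mul_inv_cancel_right]
    · intro q _ hq
      rw [← gof_mul, prH_gof_notMem S, map_zero, zero_mul]
      intro h
      apply hq
      have h5 : ((q.out : G) : G ⧸ S) = q := QuotientGroup.out_eq' q
      rw [← h5, eq_comm, QuotientGroup.eq, inv_inv]
      exact h
    · intro h
      exact absurd (hF' (Finset.mem_singleton_self _)) h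
  | h2 a b ha hb =>
    obtain ⟨F, hF⟩ := ha
    obtain ⟨T, hT⟩ := hb
    refine ⟨F ∪ T, fun F' hF' => ?_⟩
    conv_rhs => rw [← hF F' (Finset.union_subset_left hF'), ← hT F' (Finset.union_subset_right hF')]
    rw [← Finset.sum_add_distrib]
    exact Finset.sum_congr rfl fun q _ => by rw [add_mul, map_add, map_add, add_mul]
  | h3 a ha =>
    obtain ⟨F, hF⟩ := ha
    refine ⟨F, fun F' hF' => ?_⟩
    conv_rhs => rw [← hF F' hF']
    rw [← Finset.sum_neg_distrib]
    exact Finset.sum_congr rfl fun q _ => by rw [neg_mul, map_neg, map_neg, neg_mul]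

theorem prH_out (r : RR G) (q : G ⧸ S) :
    prH S (r * gof q.out) = ((w (q.out)⁻¹ : ℤˣ) : ℤ) • u1 w S r (q.out)⁻¹ := by
  unfold u1
  rw [dg_of, inv_inv, mul_smul_comm, map_zsmul, smul_smul, ← Units.val_mul, ← sq, Int.units_sq,
    Units.val_one, one_smul]

variable {D : Type} [Ring D]

/-- the linear form defined by a tuple -/
def phi {ι : Type} [Fintype ι] (i : RR S →+* D) (a : ι → D) : (ι → RR S) →+ D where
  toFun r := ∑ k, a k * i (r k)
  map_zero' := by simp
  map_add' r r' := by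
    rw [← Finset.sum_add_distrib]
    exact Finset.sum_congr rfl fun k _ => by rw [Pi.add_apply, map_add, mul_add]

theorem phi_apply {ι : Type} [Fintype ι] (i : RR S →+* D) (a : ι → D) (r : ι → RR S) :
    phi i a r = ∑ k, a k * i (r k) := rfl

/-- **Injectivity.** -/
theorem tensor_inj {ι : Type} [Fintype ι] (i : RR S →+* D) (a : ι → D)
    (y : ι → (Fin n → RR G)) (h0 : ∀ j x, ∑ k, a k * i (u1 w S (y k j) x) = 0)
    (ψ : (Fin n → RR G) →+ RR S) (hψ : ∀ (r : RR S) v, ψ (inc S r • v) = r • ψ v) :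
    ∑ k, a k * i (ψ (y k)) = 0 := by
  choose F hF using fun (k : ι) (j : Fin n) => exists_right S (y k j)
  let F0 : Finset (G ⧸ S) := Finset.univ.biUnion fun k => Finset.univ.biUnion fun j => F k j
  have hF0 : ∀ k j, F k j ⊆ F0 := by
    intro k j q hq
    exact Finset.mem_biUnion.2 ⟨k, Finset.mem_univ _, Finset.mem_biUnion.2 ⟨j, Finset.mem_univ _, hq⟩⟩
  have hy : ∀ k, y k = ∑ j, ∑ q ∈ F0, inc S (prH S (y k j * gof q.out)) •
      (gof (q.out)⁻¹ • (Pi.single j 1 : Fin n → RR G)) := by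
    intro k
    funext j
    rw [Finset.sum_apply, Finset.sum_eq_single j]
    · rw [Finset.sum_apply]
      conv_lhs => rw [← hF k j F0 (hF0 k j)]
      exact Finset.sum_congr rfl fun q _ => by
        rw [Pi.smul_apply, Pi.smul_apply, Pi.single_eq_same, smul_eq_mul, smul_eq_mul, mul_one]
    · intro j' _ hj'
      rw [Finset.sum_apply]
      exact Finset.sum_eq_zero fun q _ => by
        rw [Pi.smul_apply, Pi.smul_apply, Pi.single_eq_of_ne (Ne.symm hj'), smul_zero, smul_zero]
    · intro h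
      exact absurd (Finset.mem_univ j) h
  have h1 : ∀ k, a k * i (ψ (y k)) = ∑ j, ∑ q ∈ F0,
      (((w (q.out)⁻¹ : ℤˣ) : ℤ) • (a k * i (u1 w S (y k j) (q.out)⁻¹))) *
        i (ψ (gof (q.out)⁻¹ • (Pi.single j 1 : Fin n → RR G))) := by
    intro k
    conv_lhs => rw [hy k]
    rw [map_sum, map_sum, Finset.mul_sum]
    refine Finset.sum_congr rfl fun j _ => ?_
    rw [map_sum, map_sum, Finset.mul_sum]
    refine Finset.sum_congr rfl fun q _ => ?_
    rw [hψ, smul_eq_mul, map_mul, prH_out (w := w), map_zsmul, ← mul_assoc, mul_smul_comm]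
  rw [Finset.sum_congr rfl fun k _ => h1 k, Finset.sum_comm]
  refine Finset.sum_eq_zero fun j _ => ?_
  rw [Finset.sum_comm]
  refine Finset.sum_eq_zero fun q _ => ?_
  rw [← Finset.sum_mul, ← Finset.smul_sum, h0, smul_zero, zero_mul]

/-! ## The coefficient module -/

/-- the twisted right multiplication -/
def aD (w : G →* ℤˣ) (i : RR S →+* D) (g : G) : Module.End ℤ D :=
  if hg : g ∈ S then
    { toFun := fun d => d * i (dg (w.comp S.subtype) (gof ⟨g, hg⟩))
      map_add' := fun _ _ => add_mul _ _ _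
      map_smul' := fun _ _ => smul_mul_assoc _ _ _ }
  else 0

theorem aD_apply (i : RR S →+* D) {g : G} (hg : g ∈ S) (d : D) :
    aD w i g d = d * i (dg (w.comp S.subtype) (gof ⟨g, hg⟩)) := by
  rw [aD, dif_pos hg]
  rfl

theorem isAct_aD (i : RR S →+* D) : IsAct S (aD w i) := by
  constructor
  · refine LinearMap.ext fun d => ?_
    rw [aD_apply i S.one_mem]
    change d * i (dg (w.comp S.subtype) (gof (1 : S))) = d
    rw [gof_one, dg_one, map_one, mul_one]
  · intro g hg g' hg'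
    refine LinearMap.ext fun d => ?_
    rw [aD_apply i (S.mul_mem hg hg')]
    change _ = aD w i g (aD w i g' d)
    rw [aD_apply i hg, aD_apply i hg']
    have h1 : gof (⟨g * g', S.mul_mem hg hg'⟩ : S) = gof ⟨g, hg⟩ * gof ⟨g', hg'⟩ := by
      rw [← gof_mul]
      rfl
    rw [h1, dg_mul, map_mul, mul_assoc]

theorem aD_ne {D : Type} [DivisionRing D] (i : RR S →+* D) (hi : Function.Injective i) {g : G} (hg : g ∈ S) (hg1 : g ≠ 1)
    {d : D} (hd : d ≠ 0) : aD w i g d ≠ d := by
  intro h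
  rw [aD_apply i hg] at h
  have h1 : i (dg (w.comp S.subtype) (gof ⟨g, hg⟩)) = 1 := by
    have h2 : d * i (dg (w.comp S.subtype) (gof ⟨g, hg⟩)) = d * 1 := by rw [h, mul_one]
    exact mul_left_cancel₀ hd h2
  have h2 : dg (w.comp S.subtype) (gof (⟨g, hg⟩ : S)) = 1 := hi (by rw [h1, map_one])
  have h3 : gof (⟨g, hg⟩ : S) = gof 1 := by
    rw [← dg_dg (w.comp S.subtype) (gof (⟨g, hg⟩ : S)), h2, dg_one, gof_one]
  have h4 : (⟨g, hg⟩ : S) = 1 := MonoidAlgebra.of_injective h3
  exact hg1 (congrArg Subtype.val h4)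

/-- the coset map -/
def qS (S : Subgroup G) (x : G) : G ⧸ S := ((x⁻¹ : G) : G ⧸ S)

theorem qS_eq {x y : G} : qS S x = qS S y ↔ ∃ s ∈ S, y = s * x := by
  unfold qS
  rw [QuotientGroup.eq, inv_inv]
  constructor
  · intro h
    exact ⟨y * x⁻¹, by simpa using S.inv_mem h, by group⟩
  · rintro ⟨s, hs, rfl⟩
    have h1 : x * (s * x)⁻¹ = s⁻¹ := by group
    rw [h1]
    exact S.inv_mem hs

theorem qS_out (q : G ⧸ S) : qS S (q.out)⁻¹ = q := by
  unfold qS
  rw [inv_inv]
  exact QuotientGroup.out_eq' q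

/-- equivariant functions with finite support modulo `S` -/
def Ind (w : G →* ℤˣ) (i : RR S →+* D) : Submodule ℤ (G → D) where
  carrier := {f | f ∈ EqS S (aD w i) ∧ ∃ F : Set (G ⧸ S), F.Finite ∧ ∀ x, f x ≠ 0 → qS S x ∈ F}
  add_mem' := by
    rintro f f' ⟨h1, F, hF, h2⟩ ⟨h1', F', hF', h2'⟩
    refine ⟨Submodule.add_mem _ h1 h1', F ∪ F', hF.union hF', fun x hx => ?_⟩
    by_contra h
    rw [Set.mem_union, not_or] at h
    apply hx
    rw [Pi.add_apply, not_not.1 fun h3 => h.1 (h2 x h3), not_not.1 fun h3 => h.2 (h2' x h3),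
      add_zero]
  zero_mem' := ⟨Submodule.zero_mem _, ∅, Set.finite_empty, fun x hx => absurd rfl hx⟩
  smul_mem' := by
    rintro k f ⟨h1, F, hF, h2⟩
    refine ⟨Submodule.smul_mem _ _ h1, F, hF, fun x hx => h2 x fun h3 => hx ?_⟩
    rw [Pi.smul_apply, h3, smul_zero]

theorem stable_Ind (i : RR S →+* D) : Stable (Ind w i) := by
  rintro g f ⟨h1, F, hF, h2⟩
  refine ⟨stable_EqS _ _ g f h1, (fun q => g • q) '' F, hF.image _, fun x hx => ?_⟩
  refine ⟨_, h2 (x * g) hx, ?_⟩
  change (((g * (x * g)⁻¹ : G)) : G ⧸ S) = ((x⁻¹ : G) : G ⧸ S)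
  congr 1
  group

theorem u1_gof_self {s : G} (hs : s ∈ S) (y : G) :
    u1 w S (gof y) (s * y) = ((w y : ℤˣ) : ℤ) • dg (w.comp S.subtype) (gof ⟨s, hs⟩) := by
  rw [u1_equiv hs]
  unfold u1
  rw [dg_of, mul_smul_comm, ← gof_mul, mul_inv_cancel, map_zsmul, prH_gof S.one_mem,
    smul_mul_assoc]
  congr 1
  exact one_mul _

/-- **Surjectivity.** -/
theorem exists_tensor (i : RR S →+* D) {β : Fin n → (G → D)} (hβ : ∀ j, β j ∈ Ind w i) :
    ∃ (ι : Type) (_ : Fintype ι) (a : ι → D) (z : ι → (Fin n → RR G)),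
      ∀ j x, β j x = ∑ k, a k * i (u1 w S (z k j) x) := by
  choose h1 F hF h2 using hβ
  let F0 : Finset (G ⧸ S) := Finset.univ.biUnion fun j => (hF j).toFinset
  have hF0 : ∀ j x, β j x ≠ 0 → qS S x ∈ F0 := by
    intro j x hx
    exact Finset.mem_biUnion.2 ⟨j, Finset.mem_univ _, (hF j).mem_toFinset.2 (h2 j x hx)⟩
  refine ⟨Fin n × F0, inferInstance,
    fun k => ((w (k.2.1.out)⁻¹ : ℤˣ) : ℤ) • β k.1 (k.2.1.out)⁻¹,
    fun k => gof (k.2.1.out)⁻¹ • (Pi.single k.1 1 : Fin n → RR G), fun j x => ?_⟩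
  rw [Fintype.sum_prod_type, Finset.sum_eq_single j]
  · by_cases hx : qS S x ∈ F0
    · rw [Finset.sum_eq_single (⟨qS S x, hx⟩ : F0)]
      · obtain ⟨s, hs, hsx⟩ := qS_eq.1 (qS_out (qS S x))
        have h3 : u1 w S ((gof ((qS S x).out)⁻¹ • (Pi.single j 1 : Fin n → RR G)) j) x =
            ((w ((qS S x).out)⁻¹ : ℤˣ) : ℤ) • dg (w.comp S.subtype) (gof ⟨s, hs⟩) := by
          rw [Pi.smul_apply, Pi.single_eq_same, smul_eq_mul, mul_one]
          have h4 := u1_gof_self (w := w) hs ((qS S x).out)⁻¹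
          rwa [← hsx] at h4
        change _ = (((w ((qS S x).out)⁻¹ : ℤˣ) : ℤ) • β j ((qS S x).out)⁻¹) *
          i (u1 w S ((gof ((qS S x).out)⁻¹ • (Pi.single j 1 : Fin n → RR G)) j) x)
        rw [h3, map_zsmul, mul_smul_comm, smul_mul_assoc, smul_smul, ← Units.val_mul, ← sq,
          Int.units_sq, Units.val_one, one_smul, ← aD_apply, ← h1 j s hs, ← hsx]
      · rintro ⟨q, hq⟩ _ hne
        have h3 : u1 w S ((gof (q.out)⁻¹ • (Pi.single j 1 : Fin n → RR G)) j) x = 0 := by
          rw [Pi.smul_apply, Pi.single_eq_same, smul_eq_mul, mul_one]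
          unfold u1
          rw [dg_of, mul_smul_comm, ← gof_mul, map_zsmul, prH_gof_notMem S, smul_zero]
          intro h
          apply hne
          apply Subtype.ext
          change q = qS S x
          rw [← qS_out q, qS_eq]
          refine ⟨x * q.out, ?_, by group⟩
          have := S.inv_mem h
          rwa [mul_inv_rev, inv_inv, inv_inv] at this
        change (((w (q.out)⁻¹ : ℤˣ) : ℤ) • β j (q.out)⁻¹) *
          i (u1 w S ((gof (q.out)⁻¹ • (Pi.single j 1 : Fin n → RR G)) j) x) = 0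
        rw [h3, map_zero, mul_zero]
      · intro h
        exact absurd (Finset.mem_univ _) h
    · have h3 : β j x = 0 := not_not.1 fun h => hx (hF0 j x h)
      rw [h3, eq_comm]
      refine Finset.sum_eq_zero fun q _ => ?_
      have h4 : u1 w S ((gof (q.1.out)⁻¹ • (Pi.single j 1 : Fin n → RR G)) j) x = 0 := by
        rw [Pi.smul_apply, Pi.single_eq_same, smul_eq_mul, mul_one]
        unfold u1
        rw [dg_of, mul_smul_comm, ← gof_mul, map_zsmul, prH_gof_notMem S, smul_zero]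
        intro h
        apply hx
        have h5 : q.1 = qS S x := by
          rw [← qS_out q.1, qS_eq]
          refine ⟨x * q.1.out, ?_, by group⟩
          have := S.inv_mem h
          rwa [mul_inv_rev, inv_inv, inv_inv] at this
        rw [← h5]
        exact q.2
      change _ * i (u1 w S ((gof (q.1.out)⁻¹ • (Pi.single j 1 : Fin n → RR G)) j) x) = 0
      rw [h4, map_zero, mul_zero]
  · intro j' _ hj'
    refine Finset.sum_eq_zero fun q _ => ?_
    have h3 : u1 w S ((gof (q.1.out)⁻¹ • (Pi.single j' 1 : Fin n → RR G)) j) x = 0 := by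
      rw [Pi.smul_apply, Pi.single_eq_of_ne (Ne.symm hj'), smul_zero]
      unfold u1
      rw [zero_mul, map_zero]
    change _ * i (u1 w S ((gof (q.1.out)⁻¹ • (Pi.single j' 1 : Fin n → RR G)) j) x) = 0
    rw [h3, map_zero, mul_zero]
  · intro h
    exact absurd (Finset.mem_univ j) h

end

end Pool.Agent.H26.PD.PK
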