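import Mathlib

/-!
A projective module over a subring of a division ring is finitely generated if it has finite rank.
-/

set_option autoImplicit false

namespace Pool.Agent.H26.PD.PK

noncomputable section

/-- A projective module of finite rank over a subring of a division ring is finitely generated. -/
theorem finite_of_rank {R D K : Type} [Ring R] [DivisionRing D] [AddCommGroup K] [Module R K]
    (hK : Module.Projective R K) (i : R →+* D) (hi : Function.Injective i) (N : ℕ)
    (hN : ∀ x : Fin (N + 1) → K, ∃ a : Fin (N + 1) → D, a ≠ 0 ∧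
      ∀ φ : K →ₗ[R] R, ∑ k, a k * i (φ (x k)) = 0) : Module.Finite R K := by
  classical
  obtain ⟨s, hs⟩ := Module.projective_def'.1 hK
  let V : K → (K →₀ D) := fun x => (s x).mapRange i (map_zero i)
  have hV : ∀ x y, V x y = i (s x y) := fun x y => Finsupp.mapRange_apply
  obtain ⟨b, hb, hspan, hli⟩ := exists_linearIndependent D (Set.range V)
  have hbfin : b.Finite := by
    by_contra hinf
    let f : ℕ ↪ b := Set.Infinite.natEmbedding b hinf
    have hx : ∀ k : ℕ, ∃ x, V x = f k := fun k => hb (f k).2
    choose x hx using hx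
    obtain ⟨a, ha, ha'⟩ := hN fun k => x k
    have h1 : LinearIndependent D (fun k : Fin (N + 1) => ((f (k : ℕ) : b) : K →₀ D)) :=
      hli.comp (fun k : Fin (N + 1) => f (k : ℕ)) fun k k' h => Fin.ext (f.injective h)
    apply ha
    funext k
    refine Fintype.linearIndependent_iff.1 h1 a ?_ k
    ext y
    rw [Finsupp.finsetSum_apply, Finsupp.coe_zero, Pi.zero_apply]
    have h2 := ha' ((Finsupp.lapply y).comp s)
    rw [← h2]
    refine Finset.sum_congr rfl fun k _ => ?_
    rw [← hx, Finsupp.smul_apply, hV, smul_eq_mul]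
    rfl
  let J : Finset K := hbfin.toFinset.biUnion fun v => v.support
  have hJ : ∀ v ∈ Submodule.span D b, v ∈ Finsupp.supported D D (J : Set K) := by
    intro v hv
    refine Submodule.span_le.2 ?_ hv
    intro v hv
    rw [SetLike.mem_coe, Finsupp.mem_supported]
    intro y hy
    exact Finset.mem_biUnion.2 ⟨v, hbfin.mem_toFinset.2 hv, hy⟩
  have hx : ∀ x y, y ∉ J → s x y = 0 := by
    intro x y hy
    have h1 := hJ (V x) (by rw [hspan]; exact Submodule.subset_span ⟨x, rfl⟩)
    rw [Finsupp.mem_supported'] at h1
    have h2 := h1 y hy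
    rw [hV] at h2
    exact (map_eq_zero_iff i hi).1 h2
  refine ⟨⟨J, ?_⟩⟩
  rw [eq_top_iff]
  intro x _
  have h1 : Finsupp.linearCombination R id (s x) = x := LinearMap.congr_fun hs x
  rw [← h1, Finsupp.linearCombination_apply]
  refine Submodule.sum_mem _ fun y hy => Submodule.smul_mem _ _ (Submodule.subset_span ?_)
  by_contra hyJ
  exact (Finsupp.mem_support_iff.1 hy) (hx x y hyJ)

end

end Pool.Agent.H26.PD.PK
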