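import Pool.Agent.H26.PD.H2

/-!
Strebel's argument: the (twisted) coinvariants of a module coinduced from a subgroup of infinite
index in a finitely generated group vanish.
-/

set_option autoImplicit false
set_option linter.unusedSectionVars false

namespace Pool.Agent.H26.PD.PK

open Pool.Agent.Helper386.PD3
open scoped Classical Matrix

noncomputable section

variable {G : Type} [Group G]

/-! ## Escaping to infinity -/

section escape

variable {V : Type} [MulAction G V]

/-- iterated neighbourhoods of a point -/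
def Bl (T : Finset G) (v0 : V) : ℕ → Set V
  | 0 => {v0}
  | k + 1 => {q | ∃ t ∈ T, ∃ r ∈ Bl T v0 k, q = t • r}

theorem mem_Bl {T : Finset G} (hT : ∀ t ∈ T, t⁻¹ ∈ T) (hgen : Subgroup.closure (T : Set G) = ⊤)
    (v0 : V) (g : G) : ∃ k, g • v0 ∈ Bl T v0 k := by
  have hg : g ∈ Subgroup.closure (T : Set G) := by rw [hgen]; trivial
  induction hg using Subgroup.closure_induction_left with
  | one => exact ⟨0, by rw [one_smul]; rfl⟩
  | mul_left x hx y hy ih =>
    obtain ⟨k, hk⟩ := ih
    exact ⟨k + 1, x, hx, y • v0, hk, mul_smul x y v0⟩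
  | inv_mul_cancel x hx y hy ih =>
    obtain ⟨k, hk⟩ := ih
    exact ⟨k + 1, x⁻¹, hT x hx, y • v0, hk, mul_smul x⁻¹ y v0⟩

/-- In an infinite connected locally finite graph one can escape to infinity without infinite
backward orbits. -/
theorem exists_escape [Infinite V] [MulAction.IsPretransitive G V] {T : Finset G}
    (hT : ∀ t ∈ T, t⁻¹ ∈ T) (hgen : Subgroup.closure (T : Set G) = ⊤) :
    ∃ τ : V → G, (∀ q, τ q ∈ T) ∧ WellFounded (fun r q : V => τ r • r = q) := by
  obtain ⟨v0⟩ : Nonempty V := inferInstance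
  have hB : ∀ q : V, ∃ k, q ∈ Bl T v0 k := by
    intro q
    obtain ⟨g, rfl⟩ := MulAction.exists_smul_eq G v0 q
    exact mem_Bl hT hgen v0 g
  let d : V → ℕ := fun q => Nat.find (hB q)
  have hd : ∀ q, q ∈ Bl T v0 (d q) := fun q => Nat.find_spec (hB q)
  have hd' : ∀ q k, q ∈ Bl T v0 k → d q ≤ k := fun q k h => Nat.find_min' (hB q) h
  -- parents
  have hpar : ∀ q, q ≠ v0 → ∃ r, (∃ t ∈ T, q = t • r) ∧ d r < d q := by
    intro q hq
    have h1 := hd q
    cases hdq : d q with
    | zero =>
      rw [hdq] at h1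
      exact absurd h1 hq
    | succ k =>
      rw [hdq] at h1
      obtain ⟨t, ht, r, hr, hqr⟩ := h1
      exact ⟨r, ⟨t, ht, hqr⟩, Nat.lt_succ_of_le (hd' r k hr)⟩
  let par : V → V := fun q => if h : q ≠ v0 then (hpar q h).choose else q
  have hpar1 : ∀ q, q ≠ v0 → ∃ t ∈ T, q = t • par q := by
    intro q hq
    have h1 : par q = (hpar q hq).choose := dif_pos hq
    rw [h1]
    exact (hpar q hq).choose_spec.1
  have hpar2 : ∀ q, q ≠ v0 → d (par q) < d q := by
    intro q hq
    have h1 : par q = (hpar q hq).choose := dif_pos hq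
    rw [h1]
    exact (hpar q hq).choose_spec.2
  have hpar3 : par v0 = v0 := dif_neg (by simp)
  have hpar4 : ∀ q, d (par q) ≤ d q := by
    intro q
    by_cases hq : q = v0
    · rw [hq, hpar3]
    · exact (hpar2 q hq).le
  have hiter : ∀ k q, d (par^[k] q) ≤ d q := by
    intro k
    induction k with
    | zero => intro q; exact le_rfl
    | succ k ih =>
      intro q
      rw [Function.iterate_succ_apply]
      exact (ih _).trans (hpar4 q)
  let Desc : V → Set V := fun q => {r | ∃ k, par^[k] r = q}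
  have hroot : ∀ r, r ∈ Desc v0 := by
    intro r
    induction hr : d r using Nat.strong_induction_on generalizing r with
    | _ m ih =>
      by_cases h : r = v0
      · exact ⟨0, h⟩
      · obtain ⟨k, hk⟩ := ih (d (par r)) (by rw [← hr]; exact hpar2 r h) (par r) rfl
        exact ⟨k + 1, by rw [Function.iterate_succ_apply]; exact hk⟩
  have hroot' : Desc v0 = Set.univ := Set.eq_univ_of_forall hroot
  let Ch : V → Set V := fun q => {r | r ≠ v0 ∧ par r = q}
  have hCh : ∀ q, (Ch q).Finite := by
    intro q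
    refine (T.finite_toSet.image fun t => t • q).subset ?_
    rintro r ⟨hr, rfl⟩
    obtain ⟨t, ht, h⟩ := hpar1 r hr
    exact ⟨t, ht, h.symm⟩
  have hdec : ∀ q, Desc q ⊆ {q} ∪ ⋃ r ∈ Ch q, Desc r := by
    rintro q r ⟨k, hk⟩
    induction k generalizing r with
    | zero => exact Or.inl hk
    | succ k ih =>
      rw [Function.iterate_succ_apply'] at hk
      by_cases h : par^[k] r = v0
      · rw [h, hpar3] at hk
        exact ih (by rw [h, hk])
      · right
        exact Set.mem_biUnion (x := par^[k] r) ⟨h, hk⟩ ⟨k, rfl⟩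
  have halive : ∀ q, (Desc q).Infinite → ∃ r, (r ≠ v0 ∧ par r = q) ∧ (Desc r).Infinite := by
    intro q hq
    by_contra hcon
    push Not at hcon
    apply hq
    refine Set.Finite.subset ?_ (hdec q)
    refine (Set.finite_singleton q).union ((hCh q).biUnion fun r hr => ?_)
    exact hcon r hr
  -- the direction
  have hτ : ∀ q, ∃ t ∈ T, ((Desc q).Infinite → (t • q ≠ v0 ∧ par (t • q) = q) ∧
      (Desc (t • q)).Infinite) ∧ (¬ (Desc q).Infinite → t • q = par q) := by
    intro q
    by_cases hq : (Desc q).Infinite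
    · obtain ⟨r, ⟨hr1, hr2⟩, hr3⟩ := halive q hq
      obtain ⟨t, ht, h⟩ := hpar1 r hr1
      rw [hr2] at h
      refine ⟨t, ht, fun _ => ?_, fun h' => absurd hq h'⟩
      rw [← h]
      exact ⟨⟨hr1, hr2⟩, hr3⟩
    · have hq0 : q ≠ v0 := by
        intro h0
        apply hq
        rw [h0, hroot']
        exact Set.infinite_univ
      obtain ⟨t, ht, h⟩ := hpar1 q hq0
      refine ⟨t⁻¹, hT t ht, fun h' => absurd h' hq, fun _ => ?_⟩
      rw [inv_smul_eq_iff]
      exact h
  choose τ hτT hτ1 hτ2 using hτ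
  refine ⟨τ, hτT, ⟨?_⟩⟩
  -- dead vertices
  have hdead : ∀ q, ¬ (Desc q).Infinite → Acc (fun r q : V => τ r • r = q) q := by
    intro q
    induction hm : (Desc q).ncard using Nat.strong_induction_on generalizing q with
    | _ m ih =>
      intro hq
      refine ⟨_, fun r hr => ?_⟩
      have hr1 : ¬ (Desc r).Infinite := by
        intro h
        apply hq
        rw [← hr]
        exact (hτ1 r h).2
      have hr2 : par r = q := by rw [← hr, hτ2 r hr1]
      have hr0 : r ≠ v0 := by
        intro h0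
        apply hr1
        rw [h0, hroot']
        exact Set.infinite_univ
      refine ih _ ?_ r rfl hr1
      rw [← hm]
      refine Set.ncard_lt_ncard ⟨?_, ?_⟩ (Set.not_infinite.1 hq)
      · rintro s ⟨k, hk⟩
        exact ⟨k + 1, by rw [Function.iterate_succ_apply', hk, hr2]⟩
      · intro h
        obtain ⟨k, hk⟩ := h (show q ∈ Desc q from ⟨0, rfl⟩)
        have h1 := hiter k q
        rw [hk] at h1
        have h2 := hpar2 r hr0
        rw [hr2] at h2
        omega
  intro q
  by_cases hq : (Desc q).Infinite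
  · induction hm : d q using Nat.strong_induction_on generalizing q with
    | _ m ih =>
      refine ⟨_, fun r hr => ?_⟩
      by_cases hr1 : (Desc r).Infinite
      · refine ih _ ?_ r hr1 rfl
        obtain ⟨⟨h1, h2⟩, -⟩ := hτ1 r hr1
        rw [hr] at h1 h2
        rw [← hm, ← h2]
        exact hpar2 q h1
      · exact hdead r hr1
  · exact hdead q hq

end escape

/-! ## Coinvariants -/

variable {M : Type} [AddCommGroup M] {S : Subgroup G}

/-- **Strebel.** The twisted coinvariants of the equivariant functions vanish. -/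
theorem aug_EqS [hG : Group.FG G] [Infinite (G ⧸ S)] (w : G →* ℤˣ) (a : G → Module.End ℤ M)
    {f : G → M} (hf : f ∈ EqS S a) : f ∈ Aug w (EqS S a) := by
  obtain ⟨T0, hT0⟩ := hG.out
  let T : Finset G := T0 ∪ T0.image fun t => t⁻¹
  have hT : ∀ t ∈ T, t⁻¹ ∈ T := by
    intro t ht
    rcases Finset.mem_union.1 ht with ht | ht
    · exact Finset.mem_union_right _ (Finset.mem_image_of_mem _ ht)
    · obtain ⟨s, hs, rfl⟩ := Finset.mem_image.1 ht
      rw [inv_inv]
      exact Finset.mem_union_left _ hs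
  have hgen : Subgroup.closure (T : Set G) = ⊤ := by
    rw [eq_top_iff, ← hT0]
    refine Subgroup.closure_mono ?_
    intro t ht
    exact Finset.mem_union_left _ ht
  obtain ⟨τ, hτ, hwf⟩ := exists_escape (V := G ⧸ S) hT hgen
  let q : G → G ⧸ S := fun x => ((x⁻¹ : G) : G ⧸ S)
  have hq : ∀ x t : G, q (x * t) = t⁻¹ • q x := by
    intro x t
    change (((x * t)⁻¹ : G) : G ⧸ S) = ((t⁻¹ * x⁻¹ : G) : G ⧸ S)
    rw [mul_inv_rev]
  have hqS : ∀ s ∈ S, ∀ x, q (s * x) = q x := by
    intro s hs x
    change (((s * x)⁻¹ : G) : G ⧸ S) = ((x⁻¹ : G) : G ⧸ S)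
    rw [QuotientGroup.eq]
    simpa using S.mul_mem hs (S.one_mem)
  let r : G → G → Prop := fun x' x => x = x' * (τ (q x'))⁻¹
  have hr : WellFounded r := by
    refine Subrelation.wf (r := InvImage (fun r q : G ⧸ S => τ r • r = q) q) ?_
      (InvImage.wf q hwf)
    rintro x' x rfl
    change τ (q x') • q x' = q (x' * (τ (q x'))⁻¹)
    rw [hq, inv_inv]
  have hr' : ∀ x t, τ (q (x * t)) = t → r (x * t) x := by
    intro x t h
    change x = x * t * (τ (q (x * t)))⁻¹
    rw [h, mul_inv_cancel_right]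
  let F : G → M := hr.fix fun x ih => f x + ∑ t ∈ T,
    if h : τ (q (x * t)) = t then ((w t : ℤˣ) : ℤ) • ih (x * t) (hr' x t h) else 0
  have hF : ∀ x, F x = f x + ∑ t ∈ T,
      if τ (q (x * t)) = t then ((w t : ℤˣ) : ℤ) • F (x * t) else 0 := by
    intro x
    have h1 := hr.fix_eq (C := fun _ => M) (fun x ih => f x + ∑ t ∈ T,
      if h : τ (q (x * t)) = t then ((w t : ℤˣ) : ℤ) • ih (x * t) (hr' x t h) else 0) x
    refine h1.trans ?_
    congr 1
  have hFE : ∀ s ∈ S, ∀ x, F (s * x) = a s (F x) := by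
    intro s hs x
    induction x using hr.induction with
    | _ x ih =>
      rw [hF, hF, map_add, hf s hs, map_sum]
      congr 1
      refine Finset.sum_congr rfl fun t _ => ?_
      rw [mul_assoc, hqS s hs]
      split_ifs with h
      · rw [ih _ (hr' x t h), map_zsmul]
      · rw [map_zero]
  let Ft : G → G → M := fun t x => if τ (q x) = t then F x else 0
  have hFt : ∀ t, Ft t ∈ EqS S a := by
    intro t s hs x
    change (if τ (q (s * x)) = t then F (s * x) else 0) = a s (if τ (q x) = t then F x else 0)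
    rw [hqS s hs]
    split_ifs
    · exact hFE s hs x
    · rw [map_zero]
  have hsum : ∀ x, F x = ∑ t ∈ T, Ft t x := by
    intro x
    change F x = ∑ t ∈ T, if τ (q x) = t then F x else 0
    rw [Finset.sum_ite_eq, if_pos (hτ _)]
  have hfe : f = ∑ t ∈ T, -(rho M (dg w (gof t⁻¹)) (Ft t) - Ft t) := by
    funext x
    rw [Finset.sum_apply]
    have h1 : ∀ t, (-(rho M (dg w (gof t⁻¹)) (Ft t) - Ft t)) x =
        Ft t x - ((w t : ℤˣ) : ℤ) • Ft t (x * t) := by
      intro t
      rw [dg_of, inv_inv, map_zsmul, map_inv, Int.units_inv_eq_self, LinearMap.smul_apply,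
        Pi.neg_apply, Pi.sub_apply, Pi.smul_apply, rho_of_apply, neg_sub]
    rw [Finset.sum_congr rfl fun t _ => h1 t, Finset.sum_sub_distrib, ← hsum, hF x]
    have h2 : ∀ t, ((w t : ℤˣ) : ℤ) • Ft t (x * t) =
        if τ (q (x * t)) = t then ((w t : ℤˣ) : ℤ) • F (x * t) else 0 := by
      intro t
      change ((w t : ℤˣ) : ℤ) • (if τ (q (x * t)) = t then F (x * t) else 0) = _
      split_ifs
      · rfl
      · rw [smul_zero]
    rw [Finset.sum_congr rfl fun t _ => h2 t]
    abel
  rw [hfe]
  refine Submodule.sum_mem _ fun t _ => Submodule.neg_mem _ (Submodule.subset_span ?_)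
  exact ⟨t⁻¹, Ft t, hFt t, rfl⟩

end

end Pool.Agent.H26.PD.PK
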