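import Pool.Agent.H26.PK.Count

/-!
Finite generation of the second syzygy for residually finite `p`-groups.
-/

set_option autoImplicit false
set_option linter.unusedSectionVars false

namespace Pool.Agent.H26.PD.PK

open Pool.Agent.Helper386.PD3 Pool.Agent.H26.PD.PN
open scoped Classical Matrix

noncomputable section

variable {G : Type} [Group G] {S : Subgroup G} {n m : ℕ} {w : G →* ℤˣ}
  {e0 e1 e2 e3 d0 d1 d2 : MR G n}

theorem evf_nat {M M' : Type} [AddCommGroup M] [AddCommGroup M'] (φ : M →+ M')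
    (c : Fin n → (G → M)) (v : Fin n → RR G) :
    evf (fun j x => φ (c j x)) v = fun x => φ (evf c v x) := by
  funext x
  unfold evf
  rw [Finset.sum_apply, Finset.sum_apply, map_sum]
  exact Finset.sum_congr rfl fun j _ => congrFun (rho_nat φ _ _) x

/-- functions with finite support modulo `S` -/
def Fs (S : Subgroup G) (M : Type) [AddCommGroup M] : Submodule ℤ (G → M) where
  carrier := {f | ∃ F : Set (G ⧸ S), F.Finite ∧ ∀ x, f x ≠ 0 → qS S x ∈ F}
  add_mem' := by
    rintro f f' ⟨F, hF, h2⟩ ⟨F', hF', h2'⟩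
    refine ⟨F ∪ F', hF.union hF', fun x hx => ?_⟩
    by_contra h
    rw [Set.mem_union, not_or] at h
    apply hx
    rw [Pi.add_apply, not_not.1 fun h3 => h.1 (h2 x h3), not_not.1 fun h3 => h.2 (h2' x h3),
      add_zero]
  zero_mem' := ⟨∅, Set.finite_empty, fun x hx => absurd rfl hx⟩
  smul_mem' := by
    rintro k f ⟨F, hF, h2⟩
    refine ⟨F, hF, fun x hx => h2 x fun h3 => hx ?_⟩
    rw [Pi.smul_apply, h3, smul_zero]

theorem stable_Fs (S : Subgroup G) (M : Type) [AddCommGroup M] : Stable (Fs S M) := by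
  rintro g f ⟨F, hF, h2⟩
  refine ⟨(fun q => g • q) '' F, hF.image _, fun x hx => ?_⟩
  refine ⟨_, h2 (x * g) hx, ?_⟩
  change g • qS S (x * g) = qS S x
  rw [qS_mul, smul_inv_smul]

theorem ut_Fs {N : ℕ} (y : Fin N → (Fin n → RR G)) (j : Fin n) :
    ut w S y j ∈ Fs S (Fin N → RR S) := by
  choose F hF h1 using fun k => u1_supp (w := w) (S := S) (y k j)
  refine ⟨⋃ k, F k, Set.finite_iUnion hF, fun x hx => ?_⟩
  by_contra h
  apply hx
  funext k
  by_contra h3
  exact h (Set.mem_iUnion.2 ⟨k, h1 k x h3⟩)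

theorem card_ker_ge {A : Type} [Ring A] [Finite A] {m : ℕ}
    (L : (Fin (2 * m + 1) → A) →ₗ[A] (Fin m → A) × (Fin m → A)) :
    Nat.card A ≤ Nat.card (LinearMap.ker L) := by
  have h1 : Nat.card (Fin (2 * m + 1) → A) =
      Nat.card (LinearMap.ker L) * Nat.card (LinearMap.range L) := by
    rw [Submodule.card_eq_card_quotient_mul_card (LinearMap.ker L),
      Nat.card_congr (LinearMap.quotKerEquivRange L).toEquiv, mul_comm]
  have h2 : Nat.card (LinearMap.range L) ≤ Nat.card ((Fin m → A) × (Fin m → A)) :=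
    Nat.card_le_card_of_injective _ Subtype.val_injective
  have h3 : Nat.card ((Fin m → A) × (Fin m → A)) = Nat.card A ^ (2 * m) := by
    rw [Nat.card_prod, Nat.card_fun, Nat.card_fin, two_mul, pow_add]
  rw [Nat.card_fun, Nat.card_fin, pow_succ] at h1
  rw [h3] at h2
  have hpos : 0 < Nat.card A ^ (2 * m) := pow_pos Nat.card_pos _
  have h4 : Nat.card A ^ (2 * m) * Nat.card A ≤
      Nat.card A ^ (2 * m) * Nat.card (LinearMap.ker L) := by
    rw [h1, mul_comm]
    exact Nat.mul_le_mul_right _ h2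
  exact Nat.le_of_mul_le_mul_left h4 hpos

/-- **The mod `p` rank of the second syzygy.** -/
theorem modp_bound {p : ℕ} [hp : Fact p.Prime] (hF : Full w e0 e1 e2 e3 d0 d1 d2) (hOE : OE G)
    [hG : Group.FG G] (hGi : Infinite G) (hS : ∃ s ∈ S, s ≠ 1)
    (htf : ∀ s : S, s ≠ 1 → ∀ k : ℕ, 0 < k → s ^ k ≠ 1) (hres : ResP p S) (h : Fin m → S)
    (hgen : Subgroup.closure (Set.range h) = ⊤)
    (x : Fin (2 * m + 1) → LinearMap.ker (bd h)) :
    ∃ c : Fin (2 * m + 1) → ℤ, (∃ k, ¬ (p : ℤ) ∣ c k) ∧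
      ∀ φ : LinearMap.ker (bd h) →ₗ[RR S] RR S, (p : ℤ) ∣ eps (φ (∑ k, c k • x k)) := by
  by_contra hcon
  obtain ⟨ε, hε, ⟨u, hu, hεu⟩, hεd, hεex⟩ := hF.low.aug
  have ht : ∀ g : G, ∃ t, t ᵥ* d0 = gof g • u - u := fun g =>
    hεex (gof g • u - u) (by rw [Matrix.sub_vecMul, smul_vm, hu])
      (by rw [map_sub, hε, sub_self])
  choose t ht using ht
  obtain ⟨y, hy1, hpk⟩ := package hF h hgen x
  -- supports
  obtain ⟨T, hT⟩ := hG.out
  have hsupp : ∀ g : G, evf (ut w S y) (t g) ∈ Fs S (Fin (2 * m + 1) → RR S) :=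
    fun g => evf_mem (stable_Fs S _) (ut_Fs y) (t g)
  choose Fg hFg hFg' using hsupp
  obtain ⟨L, hL, hLf⟩ := ends_data hT hOE hGi hS
    (F := ⋃ g ∈ (T : Set G), Fg g) (T.finite_toSet.biUnion fun g _ => hFg g)
  -- the finite quotient
  let R : ℕ := L.card
  obtain ⟨P, iP, fP, f, hP, hf⟩ := resP_finset hres
    (L.attach.biUnion fun q => (Finset.range R).image fun j =>
      (⟨q.1.2, (hL q.1 q.2).1⟩ : S) ^ (j + 1)) (by
      intro s hs
      obtain ⟨q, -, hq⟩ := Finset.mem_biUnion.1 hs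
      obtain ⟨j, -, rfl⟩ := Finset.mem_image.1 hq
      refine htf _ (fun h1 => (hL q.1 q.2).2 (congrArg Subtype.val h1)) _ (Nat.succ_pos j))
  have hf' : ∀ q (hq : q ∈ L), ∀ j < R, f (⟨q.2, (hL q hq).1⟩ : S) ^ (j + 1) ≠ 1 := by
    intro q hq j hj
    rw [← map_pow]
    exact hf _ (Finset.mem_biUnion.2 ⟨⟨q, hq⟩, Finset.mem_attach _ _,
      Finset.mem_image.2 ⟨j, Finset.mem_range.2 hj, rfl⟩⟩)
  -- injectivity
  have hinj : ∀ a : Fin (2 * m + 1) → MonoidAlgebra (ZMod p) P,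
      (∀ φ : LinearMap.ker (bd h) →ₗ[RR S] RR S, ∑ k, a k * lvl p f (φ (x k)) = 0) → a = 0 := by
    intro a ha
    by_contra hne
    exact hcon (inj_level hP f x a hne ha)
  -- the choice of the cochains
  let LLm := LL (lvl p f) (fun b k => (x k).1 b) (fun b => evb (ut w S y) (t (h b : G)))
  have hβ : ∀ a : LinearMap.ker LLm, ∃ β : Fin n → (G → MonoidAlgebra (ZMod p) P),
      (∀ j, β j ∈ EqS S (aD w (lvl p f))) ∧ mv e0 β = β ∧
      mv d0 β = fun j z => phi (lvl p f) a.1 (ut w S y j z) := by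
    intro a
    obtain ⟨ha1, ha2⟩ := mem_ker_LL.1 a.2
    obtain ⟨hcd, -⟩ := hpk (lvl p f) a.1 ha1
    have hce : mv e1 (fun j z => phi (lvl p f) a.1 (ut w S y j z)) =
        fun j z => phi (lvl p f) a.1 (ut w S y j z) := by
      rw [mv_nat, mv_ut]
      funext j z
      unfold ut
      simp only [hy1]
    exact cobound hF.low h hgen hε hu hεu hεd hεex (t := fun b => t (h b : G)) (fun b => ht _)
      (fun j => (phi_mem (lvl p f) a.1 y j).1) hce hcd (fun b => by rw [evb_nat]; exact ha2 b)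
  choose β hβ1 hβ2 hβ3 using hβ
  have hfE : ∀ a, evf (β a) u ∈ EqS S (aD w (lvl p f)) :=
    fun a => evf_mem (stable_EqS _ _) (hβ1 a) u
  have hfc : ∀ a, ∀ g ∈ T, ∀ z, qS S z ∉ (⋃ g ∈ (T : Set G), Fg g) →
      evf (β a) u (z * g) = evf (β a) u z := by
    intro a g hg z hz
    have h1 : tr (MonoidAlgebra (ZMod p) P) g (evf (β a) u) - evf (β a) u =
        evf (mv d0 (β a)) (t g) := by
      rw [← evf_vecMul, ht, evf_sub, evf_smul, rho_of]
    rw [hβ3, evf_nat] at h1
    have h2 := congrFun h1 z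
    rw [Pi.sub_apply, tr_apply] at h2
    have h3 : evf (ut w S y) (t g) z = 0 := by
      by_contra h3
      exact hz (Set.mem_biUnion hg (hFg' g z h3))
    rw [h3, map_zero, sub_eq_zero] at h2
    exact h2
  -- the values at infinity
  let Θ : LinearMap.ker LLm → ∀ q : L, {v : MonoidAlgebra (ZMod p) P //
      aD w (lvl p f) q.1.2 v = v} :=
    fun a q => ⟨evf (β a) u q.1.1, (hLf (hfE a) (hfc a)).1 q.1 q.2⟩
  have hΘ : Function.Injective Θ := by
    intro a a' haa
    have hval : ∀ q ∈ L, evf (β a) u q.1 = evf (β a') u q.1 := fun q hq =>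
      congrArg Subtype.val (congrFun haa ⟨q, hq⟩)
    let β' : Fin n → (G → MonoidAlgebra (ZMod p) P) := β a - β a'
    have hev : ∀ v, evf β' v = evf (β a) v - evf (β a') v := by
      intro v
      unfold evf
      rw [← Finset.sum_sub_distrib]
      exact Finset.sum_congr rfl fun j _ => map_sub _ _ _
    have hβ'3 : mv d0 β' = fun j z => phi (lvl p f) (a.1 - a'.1) (ut w S y j z) := by
      change mv d0 (β a - β a') = _
      rw [mv_sub, hβ3, hβ3]
      funext j z
      change phi (lvl p f) a.1 _ - phi (lvl p f) a'.1 _ = phi (lvl p f) (a.1 - a'.1) _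
      simp only [phi_apply, Pi.sub_apply, sub_mul, Finset.sum_sub_distrib]
    have hβ'2 : mv e0 β' = β' := by
      change mv e0 (β a - β a') = β a - β a'
      rw [mv_sub, hβ2, hβ2]
    have hfE' : evf β' u ∈ EqS S (aD w (lvl p f)) := by
      rw [hev]
      exact Submodule.sub_mem _ (hfE a) (hfE a')
    have hfc' : ∀ g ∈ T, ∀ z, qS S z ∉ (⋃ g ∈ (T : Set G), Fg g) →
        evf β' u (z * g) = evf β' u z := by
      intro g hg z hz
      rw [hev, Pi.sub_apply, Pi.sub_apply, hfc a g hg z hz, hfc a' g hg z hz]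
    have hfI : evf β' u ∈ Ind w (lvl p f) := by
      refine ⟨hfE', (hLf hfE' hfc').2 fun q hq => ?_⟩
      rw [hev, Pi.sub_apply, hval q hq, sub_self]
    have hsub : ∀ b, ∑ k, (a.1 - a'.1) k * lvl p f ((x k).1 b) = 0 := by
      intro b
      have h1 := (mem_ker_LL.1 a.2).1 b
      have h2 := (mem_ker_LL.1 a'.2).1 b
      rw [phi_apply] at h1 h2
      simp only [Pi.sub_apply, sub_mul, Finset.sum_sub_distrib]
      rw [h1, h2, sub_self]
    have hd : ∀ j, mv d0 β' j ∈ Ind w (lvl p f) := fun j => by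
      rw [hβ'3]
      exact phi_mem _ _ _ _
    have h3 := (hpk (lvl p f) (a.1 - a'.1) hsub).2 β'
      (mem_ind hF.low (lvl p f) hu hεu hεex hβ'2 hd hfI) hβ'3
    exact Subtype.ext (sub_eq_zero.1 (hinj _ h3))
  -- counting
  have hfinK : Finite (LinearMap.ker LLm) := inferInstance
  have h1 : Nat.card (MonoidAlgebra (ZMod p) P) ≤ Nat.card (LinearMap.ker LLm) := card_ker_ge LLm
  have h2 := Nat.card_le_card_of_injective Θ hΘ
  rw [Nat.card_pi] at h2
  have h3 : ∏ q : L, Nat.card {v : MonoidAlgebra (ZMod p) P // aD w (lvl p f) q.1.2 v = v} ≤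
      ∏ q : L, p ^ Nat.card (P ⧸ Subgroup.zpowers (f (⟨q.1.2, (hL q.1 q.2).1⟩ : S))) :=
    Finset.prod_le_prod' fun q _ => card_fix f (hL q.1 q.2).1
  rw [Finset.prod_pow_eq_pow_sum] at h3
  have h4 : p ^ Nat.card P ≤
      p ^ ∑ q : L, Nat.card (P ⧸ Subgroup.zpowers (f (⟨q.1.2, (hL q.1 q.2).1⟩ : S))) := by
    rw [← card_alg]
    exact (h1.trans h2).trans h3
  have h5 := (Nat.pow_le_pow_iff_right hp.out.one_lt).1 h4
  have h6 : ∀ q : L, (R + 1) * Nat.card (P ⧸ Subgroup.zpowers (f (⟨q.1.2, (hL q.1 q.2).1⟩ : S))) ≤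
      Nat.card P := by
    intro q
    rw [Subgroup.card_eq_card_quotient_mul_card_subgroup
      (Subgroup.zpowers (f (⟨q.1.2, (hL q.1 q.2).1⟩ : S))), mul_comm, Nat.card_zpowers]
    refine Nat.mul_le_mul_left _ ?_
    by_contra hlt
    rw [not_le] at hlt
    have hpos : 0 < orderOf (f (⟨q.1.2, (hL q.1 q.2).1⟩ : S)) := orderOf_pos _
    refine hf' q.1 q.2 (orderOf (f (⟨q.1.2, (hL q.1 q.2).1⟩ : S)) - 1) (by omega) ?_
    rw [Nat.sub_add_cancel hpos]
    exact pow_orderOf_eq_one _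
  have h7 : (R + 1) * ∑ q : L, Nat.card (P ⧸ Subgroup.zpowers
      (f (⟨q.1.2, (hL q.1 q.2).1⟩ : S))) ≤ R * Nat.card P := by
    rw [Finset.mul_sum]
    refine (Finset.sum_le_sum fun q _ => h6 q).trans ?_
    rw [Finset.sum_const, smul_eq_mul, Finset.card_univ, Fintype.card_coe]
  have h8 : (R + 1) * Nat.card P ≤ R * Nat.card P := (Nat.mul_le_mul_left _ h5).trans h7
  have h9 : 0 < Nat.card P := Nat.card_pos
  have h10 : R + 1 ≤ R := Nat.le_of_mul_le_mul_right h8 h9
  omega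

/-- **Finite generation of the second syzygy.** -/
theorem finite_ker_resP {p : ℕ} [hp : Fact p.Prime] (hF : Full w e0 e1 e2 e3 d0 d1 d2)
    (hex2 : ∀ v, v ᵥ* e2 = v → v ᵥ* d1 = 0 → ∃ u, u ᵥ* d2 = v) (hOE : OE G) [Group.FG G]
    [hSi : Infinite (G ⧸ S)] (htf : ∀ s : S, s ≠ 1 → ∀ k : ℕ, 0 < k → s ^ k ≠ 1)
    (hres : ResP p S) (h : Fin m → S) (hgen : Subgroup.closure (Set.range h) = ⊤) :
    Module.Finite (RR S) (LinearMap.ker (bd h)) := by
  by_cases hS : ∃ s ∈ S, s ≠ 1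
  · have hGi : Infinite G := by
      by_contra hcon
      rw [not_infinite_iff_finite] at hcon
      exact not_finite (G ⧸ S)
    exact finite_of_modp hres (projective_ker hF hex2 h hgen) (2 * m)
      (modp_bound hF hOE hGi hS htf hres h hgen)
  · push Not at hS
    exact finite_triv hS h

end

end Pool.Agent.H26.PD.PK
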