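import Pool.Agent.H26.PK.Virt
import Pool.Agent.H26.PK.ResMain
import Pool.Agent.H26.PD.FullX
import Pool.Agent.H26.PD.Main

/-!
Coherence: finitely generated subgroups of `PD_3`-groups are of type `FP` if the group ring of a
subgroup of finite index embeds in a division ring.
-/

set_option autoImplicit false
set_option linter.unusedSectionVars false

namespace Pool.Agent.H26.PD.PK

open Pool.Agent.Helper386.PD3 Pool.Agent.H26.PD.PN
open scoped Classical Matrix

noncomputable section

/-- type `FP` -/
def TypeFP (G : Type) [Group G] : Prop :=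
  ∃ (P : ℕ → Type) (_ : ∀ i, AddCommGroup (P i)) (_ : ∀ i, Module (MonoidAlgebra ℤ G) (P i))
    (d : ∀ i, P (i + 1) →ₗ[MonoidAlgebra ℤ G] P i) (ε : P 0 →+ ℤ) (m : ℕ),
    (∀ i, Module.Finite (MonoidAlgebra ℤ G) (P i)) ∧
    (∀ i, Module.Projective (MonoidAlgebra ℤ G) (P i)) ∧
    (∀ i, m < i → Subsingleton (P i)) ∧
    Function.Surjective ε ∧
    (∀ (g : G) (x : P 0), ε (MonoidAlgebra.of ℤ G g • x) = ε x) ∧
    (∀ x : P 0, ε x = 0 ↔ x ∈ LinearMap.range (d 0)) ∧
    (∀ (i : ℕ) (x : P (i + 1)), d i x = 0 ↔ x ∈ LinearMap.range (d (i + 1)))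

section family

variable {T : Type} [Group T] {m : ℕ} (h : Fin m → T)

/-- the modules of the resolution -/
def PF : ℕ → Type
  | 0 => RR T
  | 1 => Fin m → RR T
  | 2 => LinearMap.ker (bd h)
  | _ + 3 => PUnit

instance instPFa : ∀ i, AddCommGroup (PF h i)
  | 0 => inferInstanceAs (AddCommGroup (RR T))
  | 1 => inferInstanceAs (AddCommGroup (Fin m → RR T))
  | 2 => inferInstanceAs (AddCommGroup (LinearMap.ker (bd h)))
  | _ + 3 => inferInstanceAs (AddCommGroup PUnit)

instance instPFm : ∀ i, Module (RR T) (PF h i)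
  | 0 => inferInstanceAs (Module (RR T) (RR T))
  | 1 => inferInstanceAs (Module (RR T) (Fin m → RR T))
  | 2 => inferInstanceAs (Module (RR T) (LinearMap.ker (bd h)))
  | _ + 3 => inferInstanceAs (Module (RR T) PUnit)

/-- the differentials -/
def dF : ∀ i, PF h (i + 1) →ₗ[RR T] PF h i
  | 0 => bd h
  | 1 => (LinearMap.ker (bd h)).subtype
  | 2 => (0 : PF h 3 →ₗ[RR T] PF h 2)
  | _ + 3 => 0

theorem fp_of_ker (hgen : Subgroup.closure (Set.range h) = ⊤)
    (h1 : Module.Finite (RR T) (LinearMap.ker (bd h)))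
    (h2 : Module.Projective (RR T) (LinearMap.ker (bd h))) : TypeFP T := by
  refine ⟨PF h, inferInstance, inferInstance, dF h, (eps (G := T)).toAddMonoidHom, 2, ?_, ?_, ?_,
    ?_, ?_, ?_, ?_⟩
  · intro i
    match i with
    | 0 => exact inferInstanceAs (Module.Finite (RR T) (RR T))
    | 1 => exact inferInstanceAs (Module.Finite (RR T) (Fin m → RR T))
    | 2 => exact h1
    | _ + 3 => exact inferInstanceAs (Module.Finite (RR T) PUnit)
  · intro i
    match i with
    | 0 => exact inferInstanceAs (Module.Projective (RR T) (RR T))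
    | 1 => exact inferInstanceAs (Module.Projective (RR T) (Fin m → RR T))
    | 2 => exact h2
    | _ + 3 => exact inferInstanceAs (Module.Projective (RR T) PUnit)
  · intro i hi
    match i, hi with
    | _ + 3, _ => exact inferInstanceAs (Subsingleton PUnit)
  · intro k
    refine ⟨(k : RR T), ?_⟩
    change eps (k : RR T) = k
    rw [map_intCast]
    rfl
  · intro g (x : RR T)
    change eps (gof g * x) = eps x
    rw [map_mul, eps_of, one_mul]
  · intro x
    change eps x = 0 ↔ x ∈ LinearMap.range (bd h)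
    constructor
    · intro hx
      exact bd_surj' h hgen hx
    · rintro ⟨y, rfl⟩
      exact bd_mem h y
  · intro i x
    match i, x with
    | 0, x =>
      change bd h x = 0 ↔ x ∈ LinearMap.range (LinearMap.ker (bd h)).subtype
      rw [Submodule.range_subtype]
      exact Iff.rfl
    | 1, x =>
      change (LinearMap.ker (bd h)).subtype x = 0 ↔
        x ∈ LinearMap.range (0 : PF h 3 →ₗ[RR T] PF h 2)
      rw [LinearMap.range_zero, Submodule.mem_bot]
      exact map_eq_zero_iff _ (Submodule.subtype_injective _)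
    | 2, x =>
      have hs : Subsingleton (PF h 3) := inferInstanceAs (Subsingleton PUnit)
      constructor
      · intro _
        exact ⟨0, Subsingleton.elim _ _⟩
      · intro _
        rfl
    | i + 3, x =>
      have hs : Subsingleton (PF h (i + 4)) := inferInstanceAs (Subsingleton PUnit)
      constructor
      · intro _
        exact ⟨0, Subsingleton.elim _ _⟩
      · intro _
        rfl

end family

variable {G : Type} [Group G]

/-- **Coherence.** -/
theorem coherence {P : ℕ → Type} [∀ i, AddCommGroup (P i)]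
    [∀ i, Module (MonoidAlgebra ℤ G) (P i)] {d : ∀ i, P (i + 1) →ₗ[MonoidAlgebra ℤ G] P i}
    {ε : P 0 →+ ℤ} (hR : Helper158.Reso P d ε) (m : ℕ)
    (hm : ∀ i, m < i → Subsingleton (P i))
    [∀ i, Module.Finite (MonoidAlgebra ℤ G) (P i)]
    [∀ i, Module.Projective (MonoidAlgebra ℤ G) (P i)]
    (hcoh : ∀ i, i ≠ 3 → Subsingleton (groupCohomology (Rep.leftRegular ℤ G) i))
    (htop : Nonempty (groupCohomology (Rep.leftRegular ℤ G) 3 ≃+ ℤ))
    (S : Subgroup G) (hfg : S.FG) (S₀ : Subgroup S) [S₀.FiniteIndex]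
    (h₀ : (∃ p : ℕ, p.Prime ∧ ResP p S₀) ∨
      ∃ (D : Type) (_ : DivisionRing D) (i : RR S₀ →+* D), Function.Injective i) : TypeFP S := by
  by_cases hind : S.index = 0
  · obtain ⟨w, n, e0, e1, e2, e3, d0, d1, d2, hF, hex2⟩ := exists_fullx hR m hm hcoh htop
    have hOE : OE G := oe_of_H1 (hcoh 1 (by norm_num))
    have hGfg : Group.FG G := fg_of_low hF.low
    have htf : ∀ g : G, g ≠ 1 → ∀ k : ℕ, 0 < k → g ^ k ≠ 1 := by
      intro g hg k hk hgk
      apply hg
      refine Pool.Agent.Q138.PD.torsion_free d ε m inferInstance hm hR.surj hR.equi hR.ex0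
        (fun i => ?_) g (isOfFinOrder_iff_pow_eq_one.2 ⟨k, hk, hgk⟩)
      ext x
      rw [LinearMap.mem_ker]
      exact hR.ex i x
    have hSi : Infinite (G ⧸ S) := by
      rw [← not_finite_iff_infinite]
      intro h
      exact Subgroup.index_ne_zero_of_finite (H := S) hind
    have hSfg : Group.FG S := (Group.fg_iff_subgroup_fg S).2 hfg
    -- the subgroup of finite index
    have hS₀fg : Group.FG S₀ := inferInstance
    let S' : Subgroup G := S₀.map S.subtype
    have hS'le : S' ≤ S := Subgroup.map_subtype_le S₀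
    have hS'i : Infinite (G ⧸ S') := by
      rw [← not_finite_iff_infinite]
      intro h
      have h1 : S'.index ≠ 0 := Subgroup.index_ne_zero_of_finite
      exact h1 (Nat.eq_zero_of_zero_dvd (hind ▸ Subgroup.index_dvd_of_le hS'le))
    let e : S₀ ≃* S' := S₀.equivMapOfInjective S.subtype S.subtype_injective
    have hS'fg : Group.FG S' := Group.fg_of_surjective (f := e.toMonoidHom) e.surjective
    obtain ⟨m', h', hgen'⟩ := exists_gens (H := S') hS'fg
    have hfin : Module.Finite (RR S') (LinearMap.ker (bd h')) := by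
      rcases h₀ with ⟨p, hp, hres⟩ | ⟨D, iD, i, hi⟩
      · have : Fact p.Prime := ⟨hp⟩
        refine finite_ker_resP (p := p) hF hex2 hOE ?_
          (resP_of_inj e.symm.toMonoidHom e.symm.injective hres) h' hgen'
        intro s hs k hk h1
        exact htf s.1 (fun h2 => hs (Subtype.ext h2)) k hk (congrArg Subtype.val h1)
      · exact finite_ker (S := S') hF hex2 hOE h' hgen' (i.comp (pf e.symm.toMonoidHom))
          (hi.comp (pf_inj _ e.symm.injective))
    have hFGK' : FGK S' := ⟨m', h', hgen', Module.Finite.iff_fg.1 hfin⟩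
    have hFGK : FGK S₀ := hFGK'.equiv e.symm
    obtain ⟨k, h, hgen⟩ := exists_gens (H := S) hSfg
    exact fp_of_ker h hgen (Module.Finite.iff_fg.2 (fg_ker_of_finiteIndex S₀ hFGK h hgen))
      (projective_ker hF hex2 h hgen)
  · have hSf : S.FiniteIndex := ⟨hind⟩
    have hR' := reso_rs S hR
    exact ⟨fun i => Rs S (P i), inferInstance, inferInstance, fun i => rsMap S (d i), rsε S ε, m,
      fun i => inferInstance, fun i => inferInstance, fun i hi => hm i hi, hR'.surj, hR'.equi,
      hR'.ex0, hR'.ex⟩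

end

end Pool.Agent.H26.PD.PK
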