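import Pool.Agent.H26.PK.Emb

/-!
One-endedness and the vanishing of the twisted ends.
-/

set_option autoImplicit false
set_option linter.unusedSectionVars false

namespace Pool.Agent.H26.PD.PK

open Pool.Agent.Helper386.PD3 Pool.Agent.H26.PD.PN
open scoped Classical Matrix

noncomputable section

variable {G : Type} [Group G] {S : Subgroup G} {n m : ℕ} {w : G →* ℤˣ}

/-- almost invariant sets are finite or cofinite -/
def OE (G : Type) [Group G] : Prop :=
  ∀ A : Set G, (∀ g, {x | ¬ (x * g ∈ A ↔ x ∈ A)}.Finite) → A.Finite ∨ Aᶜ.Finite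

theorem oe_of_H1 (h1 : Subsingleton (groupCohomology (Rep.leftRegular ℤ G) 1)) : OE G := by
  intro A hA
  let ind : G → ℤ := fun x => if x ∈ A then 1 else 0
  have hfin : ∀ g : G, (Function.support fun x : G => ind (x⁻¹ * g) - ind x⁻¹).Finite := by
    intro g
    refine Set.Finite.subset ((hA g).image fun x => x⁻¹) ?_
    intro x hx
    refine ⟨x⁻¹, ?_, inv_inv x⟩
    intro h
    apply hx
    change (if x⁻¹ * g ∈ A then (1 : ℤ) else 0) - (if x⁻¹ ∈ A then 1 else 0) = 0
    by_cases h2 : x⁻¹ ∈ A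
    · rw [if_pos h2, if_pos (h.2 h2), sub_self]
    · rw [if_neg h2, if_neg (fun h3 => h2 (h.1 h3)), sub_self]
  let f : G → MonoidAlgebra ℤ G := fun g =>
    ⟨Finsupp.ofSupportFinite _ (hfin g)⟩
  have hf : ∀ g x, (f g).coeff x = ind (x⁻¹ * g) - ind x⁻¹ := fun g x => rfl
  have hcoc : (f : G → (Rep.leftRegular ℤ G)) ∈ groupCohomology.cocycles₁ (Rep.leftRegular ℤ G) := by
    rw [groupCohomology.mem_cocycles₁_iff]
    intro g h
    apply MonoidAlgebra.coeff_injective
    ext x
    change (f (g * h)).coeff x = (Representation.ofMulAction ℤ G G g (f h)).coeff x + (f g).coeff x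
    rw [Representation.coeff_ofMulAction, hf, hf, hf, smul_eq_mul, mul_inv_rev, inv_inv, ← mul_assoc]
    ring
  have h2 := (groupCohomology.H1π_eq_zero_iff (⟨f, hcoc⟩ :
    groupCohomology.cocycles₁ (Rep.leftRegular ℤ G))).1 (Subsingleton.elim _ _)
  obtain ⟨a, ha⟩ := h2
  let a' : MonoidAlgebra ℤ G := a
  have h3 : ∀ g x, ind (x⁻¹ * g) - ind x⁻¹ = a'.coeff (g⁻¹ * x) - a'.coeff x := by
    intro g x
    have h4 := congrFun ha g
    rw [groupCohomology.d₀₁_hom_apply] at h4
    have h5 : (f g).coeff x = (Representation.ofMulAction ℤ G G g a' - a').coeff x :=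
      congrArg (fun z : MonoidAlgebra ℤ G => z.coeff x) h4.symm
    rw [← hf, h5, ← smul_eq_mul, ← Representation.coeff_ofMulAction]
    rfl
  have h4 : ∀ x, ind x = a'.coeff x⁻¹ + (ind 1 - a'.coeff 1) := by
    intro x
    have h5 := h3 x 1
    rw [inv_one, one_mul, mul_one] at h5
    linarith
  have h6 : {x | a'.coeff x⁻¹ ≠ 0}.Finite := by
    refine Set.Finite.subset (a'.coeff.support.finite_toSet.image fun x => x⁻¹) ?_
    intro x hx
    exact ⟨x⁻¹, Finset.mem_coe.2 (Finsupp.mem_support_iff.2 hx), inv_inv x⟩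
  by_cases h7 : ind 1 - a'.coeff 1 = 0
  · left
    refine h6.subset fun x hx h8 => ?_
    have h9 := h4 x
    rw [h8, h7, add_zero] at h9
    have h10 : ind x = 1 := if_pos hx
    rw [h10] at h9
    exact one_ne_zero h9
  · right
    refine h6.subset fun x hx h8 => h7 ?_
    have h9 := h4 x
    rw [h8, zero_add] at h9
    rw [← h9]
    exact if_neg hx

theorem eqS_inv {D : Type} [Ring D] {i : RR S →+* D} {f : G → D} (hf : f ∈ EqS S (aD w i)) {s : G} (hs : s ∈ S)
    {v : D} {x : G} (h : f (s * x) = aD w i s v) : f x = v := by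
  have h1 := (isAct_aD (w := w) i).2 s⁻¹ (S.inv_mem hs) s hs
  rw [inv_mul_cancel, (isAct_aD (w := w) i).1] at h1
  have h2 : ∀ d : D, aD w i s⁻¹ (aD w i s d) = d := fun d => (LinearMap.congr_fun h1 d).symm
  have h3 := hf s hs x
  rw [h] at h3
  rw [← h2 (f x), ← h3, h2]

/-- **Vanishing of the twisted ends.** -/
theorem ends_zero {D : Type} [DivisionRing D] (hOE : OE G) [hG : Group.FG G] (hGi : Infinite G) (hS : ∃ s ∈ S, s ≠ 1)
    (i : RR S →+* D) (hi : Function.Injective i) {f : G → D} (hf : f ∈ EqS S (aD w i))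
    (hfin : ∀ g, (qS S '' {x | f (x * g) ≠ f x}).Finite) : f ∈ Ind w i := by
  -- level sets are almost invariant
  have hinj : ∀ v : D, v ≠ 0 → Set.InjOn (qS S) {x | f x = v} := by
    intro v hv x hx y hy hxy
    obtain ⟨s, hs, rfl⟩ := qS_eq.1 hxy
    by_contra hne
    have hs1 : s ≠ 1 := by
      rintro rfl
      exact hne (one_mul x).symm
    apply aD_ne (w := w) i hi hs hs1 hv
    have h1 := hf s hs x
    rw [show f x = v from hx, show f (s * x) = v from hy] at h1
    exact h1.symm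
  have hlf : ∀ v : D, v ≠ 0 → ∀ g, {x | f x = v ∧ f (x * g) ≠ f x}.Finite := by
    intro v hv g
    refine Set.Finite.of_finite_image ((hfin g).subset ?_) ((hinj v hv).mono fun x hx => hx.1)
    rintro _ ⟨x, hx, rfl⟩
    exact ⟨x, hx.2, rfl⟩
  have hlev : ∀ v : D, v ≠ 0 → {x | f x = v}.Finite := by
    intro v hv
    rcases hOE {x | f x = v} (by
      intro g
      refine ((hlf v hv g).union ((hlf v hv g⁻¹).image fun x => x * g⁻¹)).subset ?_
      intro x hx
      by_cases h1 : f x = v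
      · left
        refine ⟨h1, fun h2 => hx ⟨fun _ => h1, fun _ => ?_⟩⟩
        exact h2.trans h1
      · right
        have h2 : f (x * g) = v := by
          by_contra h3
          exact hx ⟨fun h => absurd h h3, fun h => absurd h h1⟩
        refine ⟨x * g, ⟨h2, ?_⟩, mul_inv_cancel_right x g⟩
        rw [mul_inv_cancel_right, h2]
        exact h1) with h | h
    · exact h
    · exfalso
      obtain ⟨s, hs, hs1⟩ := hS
      have h1 : {x | f x = v}.Finite := by
        refine Set.Finite.of_finite_image (f := fun x => s * x) (h.subset ?_)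
          fun x _ y _ hxy => mul_left_cancel hxy
        rintro _ ⟨x, hx, rfl⟩ h2
        have h3 := hf s hs x
        rw [show f x = v from hx, show f (s * x) = v from h2] at h3
        exact aD_ne (w := w) i hi hs hs1 hv h3.symm
      have h2 : (Set.univ : Set G).Finite := by
        rw [← Set.union_compl_self {x | f x = v}]
        exact h1.union h
      exact Set.infinite_univ h2
  -- the boundary
  obtain ⟨T, hT⟩ := hG.out
  let F : Set (G ⧸ S) := ⋃ t ∈ (T : Set G), (qS S '' {x | f (x * t) ≠ f x}) ∪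
    (qS S '' {x | f (x * t⁻¹) ≠ f x})
  have hF : F.Finite := T.finite_toSet.biUnion fun t _ => (hfin t).union (hfin t⁻¹)
  refine ⟨hf, ⋃ c ∈ {c | c ∈ F ∧ f (c.out)⁻¹ ≠ 0}, qS S '' {z | f z = f (c.out)⁻¹}, ?_, ?_⟩
  · exact (hF.subset fun c hc => hc.1).biUnion fun c hc => (hlev _ hc.2).image _
  · intro x hx
    -- a boundary point of the level set of `f x`
    have hy : ∃ y, f y = f x ∧ qS S y ∈ F := by
      by_contra hcon
      push Not at hcon
      have h1 : ∀ g : G, ∀ y, f y = f x → f (y * g) = f x := by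
        intro g
        have hg : g ∈ Subgroup.closure (T : Set G) := by rw [hT]; trivial
        induction hg using Subgroup.closure_induction'' with
        | mem t ht =>
          intro y hy
          by_contra h
          refine hcon y hy (Set.mem_biUnion ht (Or.inl ⟨y, ?_, rfl⟩))
          rw [Set.mem_ofPred_eq, hy]
          exact h
        | inv_mem t ht =>
          intro y hy
          by_contra h
          refine hcon y hy (Set.mem_biUnion ht (Or.inr ⟨y, ?_, rfl⟩))
          rw [Set.mem_ofPred_eq, hy]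
          exact h
        | one =>
          intro y hy
          rwa [mul_one]
        | mul a b _ _ ha hb =>
          intro y hy
          rw [← mul_assoc]
          exact hb _ (ha y hy)
      have h2 : {z | f z = f x} = Set.univ := by
        refine Set.eq_univ_of_forall fun z => ?_
        have h3 := h1 (x⁻¹ * z) x rfl
        rwa [mul_inv_cancel_left] at h3
      have h3 := hlev _ hx
      rw [h2] at h3
      exact Set.infinite_univ h3
    obtain ⟨y, hy, hyF⟩ := hy
    obtain ⟨s, hs, hsy⟩ := qS_eq.1 (qS_out (qS S y))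
    have h4 : f y = aD w i s (f ((qS S y).out)⁻¹) := by
      rw [← hf s hs, ← hsy]
    have h5 : f ((qS S y).out)⁻¹ ≠ 0 := by
      intro h6
      rw [h6, map_zero] at h4
      exact hx (by rw [← hy, h4])
    have h6 : f (s⁻¹ * x) = f ((qS S y).out)⁻¹ := by
      refine eqS_inv hf hs ?_
      rw [mul_inv_cancel_left, ← hy, h4]
    refine Set.mem_biUnion (x := qS S y) ⟨hyF, h5⟩ ⟨s⁻¹ * x, h6, ?_⟩
    exact qS_eq.2 ⟨s, hs, by group⟩

variable {e0 e1 e2 d0 d1 : MR G n}

/-- a cocycle which vanishes on the generators of the subgroup is a coboundary -/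
theorem cobound (hL : Low e0 e1 e2 d0 d1) {M : Type} [AddCommGroup M] {a : G → Module.End ℤ M}
    (h : Fin m → S) (hgen : Subgroup.closure (Set.range h) = ⊤)
    {u : Fin n → RR G} {ε : (Fin n → RR G) →+ ℤ}
    (hε : ∀ (g : G) (v : Fin n → RR G), ε (gof g • v) = ε v) (hu : u ᵥ* e0 = u) (hεu : ε u = 1)
    (hεd : ∀ v, ε (v ᵥ* d0) = 0) (hεex : ∀ u, u ᵥ* e0 = u → ε u = 0 → ∃ v, v ᵥ* d0 = u)
    {t : Fin m → (Fin n → RR G)} (ht : ∀ b, t b ᵥ* d0 = gof (h b : G) • u - u)
    {c : Fin n → (G → M)} (hc : ∀ j, c j ∈ EqS S a) (he : mv e1 c = c) (hd : mv d1 c = 0)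
    (h0 : ∀ b, evb c (t b) = 0) :
    ∃ β : Fin n → (G → M), (∀ j, β j ∈ EqS S a) ∧ mv e0 β = β ∧ mv d0 β = c := by
  have hwd : ∀ y y', y ᵥ* d0 = y' ᵥ* d0 → evb c y = evb c y' := by
    intro y y' hy
    have h1 : ∀ y, y ᵥ* d0 = 0 → evb c y = 0 := by
      intro y hy
      obtain ⟨u', hu'⟩ := hL.ex1 (y ᵥ* e1) (by rw [vm_vm, hL.ee1]) (by rw [vm_vm, hL.e1d0, hy])
      have h2 : evb c y = evb c (y ᵥ* e1) := by rw [evb_vecMul, he]
      rw [h2, ← hu', evb_vecMul, hd, evb_apply]
      simp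
    rw [← sub_eq_zero, ← map_sub]
    exact h1 _ (by rw [Matrix.sub_vecMul, hy, sub_self])
  obtain ⟨ψ, hψ1, hψ2⟩ := exists_psi (N := S) hε
  have hψ : ∀ (r : RR S) y, ψ (inc S r • y) = r • ψ y :=
    lin_of_equiv (fun g hg v => by rw [hψ1 g hg, aM_apply S _ hg])
  have hz : ∀ v, ∃ z, z ᵥ* d0 = v ᵥ* e0 - inc S (ψ (v ᵥ* e0)) • u := by
    intro v
    refine hεex _ ?_ ?_
    · rw [Matrix.sub_vecMul, vm_vm, hL.ee0, smul_vm, hu]
    · rw [map_sub, eps_eq hε, eps_inc, hψ2, hεu, mul_one, sub_self]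
  choose z hz using hz
  have hzadd : ∀ v v', evb c (z (v + v')) = evb c (z v) + evb c (z v') := by
    intro v v'
    rw [← map_add]
    refine hwd _ _ ?_
    rw [Matrix.add_vecMul, hz, hz, hz, Matrix.add_vecMul, map_add, map_add, add_smul]
    abel
  obtain ⟨Z, hZ⟩ : ∃ Z : (Fin n → RR G) →+ M, ∀ v, Z v = evb c (z v) :=
    ⟨AddMonoidHom.mk' (fun v => evb c (z v)) hzadd, fun _ => rfl⟩
  have hZe : ∀ g ∈ S, ∀ v, Z (gof g • v) = a g (Z v) := by
    intro g hg v
    rw [hZ, hZ, ← evb_equiv hc hg]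
    refine hwd _ _ ?_
    rw [smul_vm, hz, hz, smul_vm, smul_sub]
    congr 1
    have h1 : gof g • (v ᵥ* e0) = inc S (gof ⟨g, hg⟩) • (v ᵥ* e0) := by rw [inc_of]
    rw [h1, hψ, smul_eq_mul, map_mul, inc_of, mul_smul]
  obtain ⟨β, hβ0⟩ : ∃ β : Fin n → (G → M), ∀ j x, β j x = Z (gof x • Pi.single j (1 : RR G)) :=
    ⟨fun j x => Z (gof x • Pi.single j (1 : RR G)), fun _ _ => rfl⟩
  have hβ : ∀ v, evb β v = Z v := by
    intro v
    exact hom_ext (F := evb β) (F' := Z) (fun x j => (evb_single β x j).trans (hβ0 j x)) v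
  have hmv : ∀ (A : MR G n) (b : Fin n → (G → M)) i x, mv A b i x =
      evb b ((gof x • Pi.single i (1 : RR G)) ᵥ* A) := by
    intro A b i x
    rw [evb_vecMul, evb_single]
  refine ⟨β, ?_, ?_, ?_⟩
  · intro j g hg x
    rw [hβ0, hβ0, gof_mul, mul_smul, hZe g hg]
  · funext i x
    rw [hmv, hβ, hβ0, hZ, hZ]
    refine hwd _ _ ?_
    rw [hz, hz, vm_vm, hL.ee0]
  · funext i x
    rw [hmv, hβ, hZ, ← evb_single c]
    generalize gof x • (Pi.single i (1 : RR G) : Fin n → RR G) = y
    -- the correction term vanishes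
    have hev0 : ∀ b (r : RR S), evb c (inc S r • t b) = 0 := by
      intro b r
      induction r using rr_ind with
      | h1 g => rw [inc_of, evb_equiv hc g.2, h0, map_zero]
      | h2 x y hx hy => rw [map_add, add_smul, map_add, hx, hy, add_zero]
      | h3 x hx => rw [map_neg, neg_smul, map_neg, hx, neg_zero]
    obtain ⟨η, hη⟩ := bd_surj' h hgen (r := ψ (y ᵥ* d0)) (by rw [hψ2, hεd])
    have h1 : (∑ b, inc S (η b) • t b) ᵥ* d0 = inc S (ψ (y ᵥ* d0)) • u := by
      rw [← hη, bd_apply, map_sum, Finset.sum_smul, Matrix.sum_vecMul]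
      refine Finset.sum_congr rfl fun b _ => ?_
      rw [smul_vm, ht, map_mul, map_sub, inc_of, map_one, mul_smul, sub_smul, one_smul]
    have h2 : evb c (∑ b, inc S (η b) • t b) = 0 := by
      rw [map_sum]
      exact Finset.sum_eq_zero fun b _ => hev0 b _
    have h3 : evb c (z (y ᵥ* d0)) = evb c (y - ∑ b, inc S (η b) • t b) := by
      refine hwd _ _ ?_
      rw [hz, Matrix.sub_vecMul, h1, vm_vm, hL.d0e0]
    rw [h3, map_sub, h2, sub_zero]

end

end Pool.Agent.H26.PD.PK
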