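import Pool.Agent.H26.PK.Flow
import Pool.Agent.H26.PN.Flat

/-!
The second syzygy of the trivial module over a finitely generated subgroup of infinite index of a
`PD_3`-group is projective.
-/

set_option autoImplicit false
set_option linter.unusedSectionVars false

namespace Pool.Agent.H26.PD.PK

open Pool.Agent.Helper386.PD3 Pool.Agent.H26.PD.PN
open scoped Classical Matrix

noncomputable section

variable {G : Type} [Group G] {S : Subgroup G} {n m : ℕ} {w : G →* ℤˣ}
  {e0 e1 e2 e3 d0 d1 d2 : MR G n}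

theorem smul_vm (r : RR G) (v : Fin n → RR G) (A : MR G n) : (r • v) ᵥ* A = r • (v ᵥ* A) :=
  Matrix.smul_vecMul _ _ _

theorem vm_vm (v : Fin n → RR G) (A B : MR G n) : v ᵥ* A ᵥ* B = v ᵥ* (A * B) :=
  Matrix.vecMul_vecMul _ _ _

/-- the action on a free module -/
def aF (G : Type) [Group G] (n : ℕ) (g : G) : Module.End ℤ (Fin n → RR G) where
  toFun v := gof g • v
  map_add' _ _ := smul_add _ _ _
  map_smul' _ _ := smul_comm _ _ _

theorem aF_apply (g : G) (v : Fin n → RR G) : aF G n g v = gof g • v := rfl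

/-- the tautological cochain -/
def tcF (e3 : MR G n) (j : Fin n) : G → (Fin n → RR G) :=
  fun x => (gof x • Pi.single j (1 : RR G)) ᵥ* e3

theorem tcF_mem (e3 : MR G n) (j : Fin n) : tcF e3 j ∈ EqS S (aF G n) := by
  intro g _ x
  rw [aF_apply]
  unfold tcF
  rw [gof_mul, mul_smul, smul_vm]

theorem evb_tcF (e3 : MR G n) (v : Fin n → RR G) : evb (tcF e3) v = v ᵥ* e3 := by
  refine hom_ext (F := evb (tcF e3)) (F' := AddMonoidHom.mk' (fun v => v ᵥ* e3)
    (fun v v' => Matrix.add_vecMul _ _ _)) (fun x j => ?_) v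
  rw [evb_single]
  rfl

theorem mv_tcF (e3 A : MR G n) : mv A (tcF e3) = tcF (A * e3) := by
  funext i x
  rw [← evb_single (mv A (tcF e3)), ← evb_vecMul, evb_tcF, vm_vm]
  rfl

/-- the top boundary map splits over a subgroup of infinite index -/
theorem exists_retr (hF : Full w e0 e1 e2 e3 d0 d1 d2) [Group.FG G] [Infinite (G ⧸ S)] :
    ∃ σ : (Fin n → RR G) →+ (Fin n → RR G), (∀ g ∈ S, ∀ v, σ (gof g • v) = gof g • σ v) ∧
      (∀ v, σ v ᵥ* e3 = σ v) ∧ ∀ v, σ (v ᵥ* d2) = v ᵥ* e3 := by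
  obtain ⟨cc, U, Y, hD⟩ := full_exists_dual hF
  obtain ⟨b, hb, hb'⟩ := hD.lift (stable_EqS S (aF G n)) (tcF_mem e3)
    (by rw [mv_tcF, full_ee3 hF]) (aug_EqS w (aF G n)
      (Submodule.sum_mem _ fun j _ => Submodule.smul_mem _ _ (tcF_mem e3 j)))
  refine ⟨(AddMonoidHom.mk' (fun v => v ᵥ* e3) (fun v v' => Matrix.add_vecMul _ _ _)).comp
    (evb b), ?_, ?_, ?_⟩
  · intro g hg v
    change evb b (gof g • v) ᵥ* e3 = gof g • (evb b v ᵥ* e3)
    rw [evb_equiv hb hg, aF_apply, smul_vm]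
  · intro v
    change evb b v ᵥ* e3 ᵥ* e3 = evb b v ᵥ* e3
    rw [vm_vm, full_ee3 hF]
  · intro v
    change evb b (v ᵥ* d2) ᵥ* e3 = v ᵥ* e3
    rw [evb_vecMul, hb', evb_tcF, vm_vm, full_ee3 hF]

/-- free modules over the group are projective over the subgroup -/
theorem projective_rs (S : Subgroup G) (n : ℕ) :
    Module.Projective (RR S) (Rs S (Fin n → RR G)) := by
  refine Module.Projective.of_lifting_property'' fun f hf => ?_
  obtain ⟨F, hF1, hF2⟩ := lift_free (n := n) (isAct_aM S (Rs S (Fin n → RR G) →₀ RR S))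
    (fun j x v => f v = toRs S (gof x • Pi.single j (1 : RR G)))
    (fun j x => hf _)
    (fun g hg j x v hv => by
      rw [aM_apply S _ hg, map_smul, hv, smul_rs, inc_of, smul_smul, ← gof_mul])
  have hlin : ∀ (r : RR S) (v : Fin n → RR G), F (inc S r • v) = r • F v :=
    lin_of_equiv (fun g hg v => by rw [hF1 g hg, aM_apply S _ hg])
  refine ⟨{ toFun := fun v => F ((toRs S).symm v)
            map_add' := fun v v' => by rw [map_add, map_add]
            map_smul' := fun r v => hlin r v }, ?_⟩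
  refine LinearMap.ext fun v => ?_
  change f (F ((toRs S).symm v)) = v
  refine hom_ext (F := f.toAddMonoidHom.comp F) (F' := (toRs S).toAddMonoidHom) (fun x j => ?_)
    ((toRs S).symm v)
  exact hF2 j x

/-- the map of complexes in degree one -/
def f1 (v : Fin m → (Fin n → RR G)) (x : Fin m → RR S) : Fin n → RR G :=
  ∑ b, inc S (x b) • v b

theorem f1_add (v : Fin m → (Fin n → RR G)) (x x' : Fin m → RR S) :
    f1 v (x + x') = f1 v x + f1 v x' := by
  unfold f1
  rw [← Finset.sum_add_distrib]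
  exact Finset.sum_congr rfl fun b _ => by rw [Pi.add_apply, map_add, add_smul]

theorem f1_smul (v : Fin m → (Fin n → RR G)) (r : RR S) (x : Fin m → RR S) :
    f1 v (r • x) = inc S r • f1 v x := by
  unfold f1
  rw [Finset.smul_sum]
  exact Finset.sum_congr rfl fun b _ => by
    rw [Pi.smul_apply, smul_eq_mul, map_mul, mul_smul]

theorem f1_vecMul (v : Fin m → (Fin n → RR G)) (x : Fin m → RR S) (A : MR G n) :
    f1 v x ᵥ* A = ∑ b, inc S (x b) • (v b ᵥ* A) := by
  unfold f1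
  rw [Matrix.sum_vecMul]
  exact Finset.sum_congr rfl fun b _ => smul_vm _ _ _

/-- Comparison of a resolution of `G` with the beginning of a resolution of `S`. -/
theorem compare (hL : Low e0 e1 e2 d0 d1) (h : Fin m → S)
    (hgen : Subgroup.closure (Set.range h) = ⊤) :
    ∃ (v : Fin m → (Fin n → RR G)) (g1 : (Fin n → RR G) →+ (Fin m → RR S))
      (k : Fin m → (Fin m → RR S)),
      (∀ b, v b ᵥ* e1 = v b) ∧
      (∀ (r : RR S) y, g1 (inc S r • y) = r • g1 y) ∧
      (∀ y, bd h (g1 (y ᵥ* d1)) = 0) ∧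
      (∀ x, bd h x = 0 → f1 v x ᵥ* d0 = 0) ∧
      (∀ b, bd h (k b) = 0) ∧
      ∀ x, bd h x = 0 → x = g1 (f1 v x) + ∑ b, x b • k b := by
  obtain ⟨ε, hε, ⟨u, hu, hεu⟩, hεd, hεex⟩ := hL.aug
  have hv : ∀ b, ∃ v, v ᵥ* e1 = v ∧ v ᵥ* d0 = gof (h b : G) • u - u := by
    intro b
    obtain ⟨v, hv⟩ := hεex (gof (h b : G) • u - u)
      (by rw [Matrix.sub_vecMul, smul_vm, hu]) (by rw [map_sub, hε, sub_self])
    exact ⟨v ᵥ* e1, by rw [vm_vm, hL.ee1], by rw [vm_vm, hL.e1d0, hv]⟩
  choose v hv1 hv2 using hv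
  obtain ⟨ψ, hψ1, hψ2⟩ := exists_psi (N := S) hε
  have hψ : ∀ (r : RR S) y, ψ (inc S r • y) = r • ψ y :=
    lin_of_equiv (fun g hg v => by rw [hψ1 g hg, aM_apply S _ hg])
  obtain ⟨g1, hg1, hg2⟩ := lift_free (n := n) (isAct_aM S (Fin m → RR S))
    (fun j x y => bd h y = ψ ((gof x • Pi.single j (1 : RR G)) ᵥ* d0))
    (fun j x => bd_surj' h hgen (by rw [hψ2, hεd]))
    (fun g hg j x y hy => by
      rw [aM_apply S _ hg, map_smul, hy, gof_mul, mul_smul, ← hψ, inc_of, smul_vm (gof g)])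
  have hg : ∀ (r : RR S) y, g1 (inc S r • y) = r • g1 y :=
    lin_of_equiv (fun g hg v => by rw [hg1 g hg, aM_apply S _ hg])
  have hbd : ∀ y, bd h (g1 y) = ψ (y ᵥ* d0) := by
    intro y
    refine hom_ext (F := (bd h).toAddMonoidHom.comp g1)
      (F' := ψ.comp (AddMonoidHom.mk' (fun v => v ᵥ* d0) (fun v v' => Matrix.add_vecMul _ _ _)))
      (fun x j => ?_) y
    exact hg2 j x
  obtain ⟨κ, hκ⟩ := bd_surj' h hgen (r := ψ u - 1) (by rw [map_sub, hψ2, hεu, map_one, sub_self])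
  refine ⟨v, g1, fun b => Pi.single b 1 - g1 (v b) + (gof (h b) - 1 : RR S) • κ, hv1, hg, ?_, ?_,
    ?_, ?_⟩
  · intro y
    rw [hbd, vm_vm, hL.dd, Matrix.vecMul_zero, map_zero]
  · intro x hx
    rw [f1_vecMul]
    have h1 : ∀ b, inc S (x b) • (v b ᵥ* d0) = inc S (x b * (gof (h b) - 1)) • u := by
      intro b
      rw [hv2, map_mul, map_sub, inc_of, map_one, mul_smul, sub_smul, one_smul]
    rw [Finset.sum_congr rfl fun b _ => h1 b, ← Finset.sum_smul, ← map_sum]
    rw [bd_apply] at hx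
    rw [hx, map_zero, zero_smul]
  · intro b
    rw [map_add, map_sub, bd_single, hbd, hv2, map_smul, hκ, map_sub]
    have h1 : ψ (gof (h b : G) • u) = gof (h b) * ψ u := by
      rw [← inc_of, hψ, smul_eq_mul]
    rw [h1, smul_eq_mul, mul_sub, sub_mul, mul_one, one_mul]
    abel
  · intro x hx
    have h1 : ∑ b, x b • (Pi.single b 1 - g1 (v b) + (gof (h b) - 1 : RR S) • κ) =
        x - g1 (f1 v x) + bd h x • κ := by
      have h2 : ∑ b, x b • (Pi.single b (1 : RR S) : Fin m → RR S) = x := by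
        funext k
        rw [Finset.sum_apply, Finset.sum_eq_single k]
        · simp
        · intro i _ hi
          rw [Pi.smul_apply, Pi.single_eq_of_ne (Ne.symm hi), smul_zero]
        · intro h
          exact absurd (Finset.mem_univ k) h
      have h3 : g1 (f1 v x) = ∑ b, x b • g1 (v b) := by
        unfold f1
        rw [map_sum]
        exact Finset.sum_congr rfl fun b _ => hg _ _
      rw [h3, bd_apply, Finset.sum_smul]
      simp only [smul_add, smul_sub, Finset.sum_add_distrib, Finset.sum_sub_distrib, h2,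
        smul_smul]
    rw [h1, hx, zero_smul, add_zero, add_sub_cancel]

/-- **Strebel.** The second syzygy is projective. -/
theorem projective_ker (hF : Full w e0 e1 e2 e3 d0 d1 d2)
    (hex2 : ∀ v, v ᵥ* e2 = v → v ᵥ* d1 = 0 → ∃ u, u ᵥ* d2 = v) [Group.FG G]
    [Infinite (G ⧸ S)] (h : Fin m → S) (hgen : Subgroup.closure (Set.range h) = ⊤) :
    Module.Projective (RR S) (LinearMap.ker (bd h)) := by
  obtain ⟨σ, hσ1, hσ2, hσ3⟩ := exists_retr (S := S) hF
  obtain ⟨v, g1, k, hv, hg1, hg2, hf, hk, hx⟩ := compare hF.low h hgen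
  have hσ : ∀ (r : RR S) y, σ (inc S r • y) = inc S r • σ y := by
    intro r y
    induction r using rr_ind with
    | h1 g => rw [inc_of, hσ1 g g.2]
    | h2 a b ha hb => rw [map_add, add_smul, map_add, ha, hb, add_smul]
    | h3 a ha => rw [map_neg, neg_smul, map_neg, ha, neg_smul]
  -- existence and uniqueness
  have hexi : ∀ x : LinearMap.ker (bd h), ∃ z, z ᵥ* e2 = z ∧ z ᵥ* d1 = f1 v x.1 ∧ σ z = 0 := by
    intro x
    obtain ⟨y, hy⟩ := hF.low.ex1 (f1 v x.1) (by
      rw [f1_vecMul]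
      exact Finset.sum_congr rfl fun b _ => by rw [hv]) (hf x.1 x.2)
    refine ⟨y ᵥ* e2 - σ (y ᵥ* e2) ᵥ* d2, ?_, ?_, ?_⟩
    · rw [Matrix.sub_vecMul, vm_vm, vm_vm, hF.low.ee2, full_d2e2 hF]
    · rw [Matrix.sub_vecMul, vm_vm, vm_vm, hF.low.e2d1, full_dd2 hF, Matrix.vecMul_zero, sub_zero,
        hy]
    · rw [map_sub, hσ3, hσ2, sub_self]
  have huniq : ∀ z, z ᵥ* e2 = z → z ᵥ* d1 = 0 → σ z = 0 → z = 0 := by
    intro z h1 h2 h3
    obtain ⟨u, rfl⟩ := hex2 z h1 h2
    rw [hσ3] at h3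
    rw [← full_e3d2 hF, ← vm_vm, h3, Matrix.zero_vecMul]
  choose f2 hf1 hf2 hf3 using hexi
  have hadd : ∀ x x', f2 (x + x') = f2 x + f2 x' := by
    intro x x'
    rw [← sub_eq_zero]
    refine huniq _ ?_ ?_ ?_
    · rw [Matrix.sub_vecMul, Matrix.add_vecMul, hf1, hf1, hf1]
    · rw [Matrix.sub_vecMul, Matrix.add_vecMul, hf2, hf2, hf2]
      change f1 v (x.1 + x'.1) - _ = 0
      rw [f1_add, sub_self]
    · rw [map_sub, map_add, hf3, hf3, hf3, add_zero, sub_self]
  have hsmul : ∀ (r : RR S) x, f2 (r • x) = inc S r • f2 x := by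
    intro r x
    rw [← sub_eq_zero]
    refine huniq _ ?_ ?_ ?_
    · rw [Matrix.sub_vecMul, smul_vm, hf1, hf1]
    · rw [Matrix.sub_vecMul, smul_vm, hf2, hf2]
      change f1 v (r • x.1) - _ = 0
      rw [f1_smul, sub_self]
    · rw [map_sub, hσ, hf3, hf3, smul_zero, sub_self]
  have := projective_rs S n
  let i : LinearMap.ker (bd h) →ₗ[RR S] (Rs S (Fin n → RR G)) × (Fin m → RR S) :=
    { toFun := fun x => (toRs S (f2 x), x.1)
      map_add' := fun x x' => by rw [hadd, map_add]; rfl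
      map_smul' := fun r x => by rw [hsmul]; rfl }
  let s : (Rs S (Fin n → RR G)) × (Fin m → RR S) →ₗ[RR S] LinearMap.ker (bd h) :=
    { toFun := fun y => ⟨g1 ((toRs S).symm y.1 ᵥ* d1) + ∑ b, y.2 b • k b, by
        rw [LinearMap.mem_ker, map_add, hg2, zero_add, map_sum]
        exact Finset.sum_eq_zero fun b _ => by rw [map_smul, hk, smul_zero]⟩
      map_add' := fun y y' => by
        apply Subtype.ext
        change g1 (((toRs S).symm y.1 + (toRs S).symm y'.1) ᵥ* d1) + ∑ b, (y.2 b + y'.2 b) • k b =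
          (g1 ((toRs S).symm y.1 ᵥ* d1) + ∑ b, y.2 b • k b) +
          (g1 ((toRs S).symm y'.1 ᵥ* d1) + ∑ b, y'.2 b • k b)
        rw [Matrix.add_vecMul, map_add]
        simp only [add_smul, Finset.sum_add_distrib]
        abel
      map_smul' := fun r y => by
        apply Subtype.ext
        change g1 ((inc S r • (toRs S).symm y.1) ᵥ* d1) + ∑ b, (r * y.2 b) • k b =
          r • (g1 ((toRs S).symm y.1 ᵥ* d1) + ∑ b, y.2 b • k b)
        rw [smul_vm, hg1, smul_add, Finset.smul_sum]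
        simp only [mul_smul] }
  refine Module.Projective.of_split i s (LinearMap.ext fun x => ?_)
  apply Subtype.ext
  change g1 (f2 x ᵥ* d1) + ∑ b, x.1 b • k b = x.1
  rw [hf2]
  exact (hx x.1 x.2).symm

end

end Pool.Agent.H26.PD.PK
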