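import Pool.Agent.H26.PK.One
import Pool.Agent.H26.PK.FinK

/-!
The rank of the second syzygy is finite.
-/

set_option autoImplicit false
set_option linter.unusedSectionVars false

namespace Pool.Agent.H26.PD.PK

open Pool.Agent.Helper386.PD3 Pool.Agent.H26.PD.PN
open scoped Classical Matrix

noncomputable section

variable {G : Type} [Group G] {S : Subgroup G} {n m : ℕ} {w : G →* ℤˣ}
  {e0 e1 e2 e3 d0 d1 d2 : MR G n}

theorem zs_vm (k : ℤ) (v : Fin n → RR G) (A : MR G n) : (k • v) ᵥ* A = k • (v ᵥ* A) :=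
  Matrix.smul_vecMul _ _ _

theorem u1_supp (r : RR G) : ∃ F : Set (G ⧸ S), F.Finite ∧ ∀ x, u1 w S r x ≠ 0 → qS S x ∈ F := by
  induction r using rr_ind with
  | h1 g =>
    refine ⟨{qS S g}, Set.finite_singleton _, fun x hx => ?_⟩
    rw [Set.mem_singleton_iff, qS_eq]
    refine ⟨g * x⁻¹, ?_, by group⟩
    by_contra h
    apply hx
    unfold u1
    rw [dg_of, mul_smul_comm, ← gof_mul, map_zsmul, prH_gof_notMem S h, smul_zero]
  | h2 x y hx hy =>
    obtain ⟨F, hF, h1⟩ := hx
    obtain ⟨F', hF', h2⟩ := hy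
    refine ⟨F ∪ F', hF.union hF', fun z hz => ?_⟩
    by_contra h
    rw [Set.mem_union, not_or] at h
    apply hz
    rw [u1_add, not_not.1 fun h3 => h.1 (h1 z h3), not_not.1 fun h3 => h.2 (h2 z h3), add_zero]
  | h3 x hx =>
    obtain ⟨F, hF, h1⟩ := hx
    refine ⟨F, hF, fun z hz => h1 z fun h => hz ?_⟩
    rw [u1_neg, h, neg_zero]

/-- the tuple of cochains of a tuple of vectors -/
def ut {N : Type} (w : G →* ℤˣ) (S : Subgroup G) (y : N → (Fin n → RR G)) (j : Fin n) (x : G) :
    N → RR S := fun k => u1 w S (y k j) x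

theorem mv_ut {N : Type} (A : MR G n) (y : N → (Fin n → RR G)) :
    mv A (ut w S y) = ut w S (fun k => y k ᵥ* dgM w A) := by
  funext i x k
  have h1 := congrFun (congrFun (mv_nat (Pi.evalAddMonoidHom (fun _ : N => RR S) k) A
    (ut w S y)) i) x
  refine h1.symm.trans ?_
  exact congrFun (congrFun (mv_uv (w := w) (S := S) A (y k)) i) x

theorem phi_mem {D : Type} [Ring D] {N : Type} [Fintype N] (i : RR S →+* D) (a : N → D) (y : N → (Fin n → RR G))
    (j : Fin n) : (fun x => phi i a (ut w S y j x)) ∈ Ind w i := by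
  constructor
  · intro s hs x
    rw [aD_apply i hs]
    change phi i a _ = phi i a _ * _
    rw [phi_apply, phi_apply, Finset.sum_mul]
    refine Finset.sum_congr rfl fun k _ => ?_
    unfold ut
    rw [u1_equiv hs, map_mul, mul_assoc]
  · choose F hF h1 using fun k => u1_supp (w := w) (S := S) (y k j)
    refine ⟨⋃ k, F k, Set.finite_iUnion hF, fun x hx => ?_⟩
    by_contra h
    apply hx
    change phi i a _ = 0
    rw [phi_apply]
    refine Finset.sum_eq_zero fun k _ => ?_
    have h2 : ut w S y j x k = 0 := by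
      by_contra h3
      exact h (Set.mem_iUnion.2 ⟨k, h1 k x h3⟩)
    rw [h2, map_zero, mul_zero]

/-- coboundaries with support finite modulo `S` come from such cochains -/
theorem mem_ind {D : Type} [Ring D] (hL : Low e0 e1 e2 d0 d1) (i : RR S →+* D)
    {u : Fin n → RR G} {ε : (Fin n → RR G) →+ ℤ} (hu : u ᵥ* e0 = u) (hεu : ε u = 1)
    (hεex : ∀ u, u ᵥ* e0 = u → ε u = 0 → ∃ v, v ᵥ* d0 = u)
    {β : Fin n → (G → D)} (he : mv e0 β = β) (hd : ∀ j, mv d0 β j ∈ Ind w i)
    (hfI : evf β u ∈ Ind w i) (j : Fin n) : β j ∈ Ind w i := by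
  obtain ⟨y, hy⟩ := hεex (e0 j - ε (e0 j) • u) (by
    rw [Matrix.sub_vecMul, zs_vm, hu]
    congr 1
    exact congrFun hL.ee0 j) (by rw [map_sub, map_zsmul, hεu, smul_eq_mul, mul_one, sub_self])
  have h1 : β j = ε (e0 j) • evf β u + evf (mv d0 β) y := by
    rw [← evf_vecMul, hy, evf_sub, evf_zsmul, evf_row, he]
    abel
  rw [h1]
  exact Submodule.add_mem _ (Submodule.smul_mem _ _ hfI) (evf_mem (stable_Ind i) hd y)

/-- The comparison of the second syzygy with the dual complex. -/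
theorem package (hF : Full w e0 e1 e2 e3 d0 d1 d2) (h : Fin m → S)
    (hgen : Subgroup.closure (Set.range h) = ⊤) {N : ℕ} (x : Fin N → LinearMap.ker (bd h)) :
    ∃ y : Fin N → (Fin n → RR G), (∀ k, y k ᵥ* dgM w e1 = y k) ∧
      ∀ {D : Type} [Ring D] (i : RR S →+* D) (a : Fin N → D),
        (∀ b, ∑ k, a k * i ((x k).1 b) = 0) →
        mv d1 (fun j z => phi i a (ut w S y j z)) = 0 ∧
        ∀ β : Fin n → (G → D), (∀ j, β j ∈ Ind w i) →
          mv d0 β = (fun j z => phi i a (ut w S y j z)) →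
          ∀ φ : LinearMap.ker (bd h) →ₗ[RR S] RR S, ∑ k, a k * i (φ (x k)) = 0 := by
  obtain ⟨v, g1, kk, hv, hg1, hg2, hf, hkk, hx⟩ := compare hF.colow h hgen
  have hy : ∀ k, ∃ y, y ᵥ* dgM w e1 = y ∧ y ᵥ* dgM w d1 = f1 v (x k).1 := by
    intro k
    obtain ⟨y, hy⟩ := hF.colow.ex1 (f1 v (x k).1) (by
      rw [f1_vecMul]
      exact Finset.sum_congr rfl fun b _ => by rw [hv]) (hf _ (x k).2)
    exact ⟨y ᵥ* dgM w e1, by rw [vm_vm, hF.colow.ee2], by rw [vm_vm, hF.colow.e2d1, hy]⟩
  choose y hy1 hy2 using hy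
  refine ⟨y, hy1, fun {D} _ i a ha1 => ⟨?_, fun β hβI hβ3 φ => ?_⟩⟩
  · rw [mv_nat, mv_ut]
    funext j z
    unfold ut
    simp only [hy2]
    rw [phi_apply]
    have h1 : ∀ k, a k * i (u1 w S (f1 v (x k).1 j) z) =
        ∑ b, (a k * i ((x k).1 b)) * i (u1 w S (v b j) z) := by
      intro k
      have h2 : f1 v (x k).1 j = ∑ b, inc S ((x k).1 b) * v b j := by
        unfold f1
        rw [Finset.sum_apply]
        rfl
      rw [h2, u1_sum, map_sum, Finset.mul_sum]
      exact Finset.sum_congr rfl fun b _ => by rw [u1_inc, map_mul, mul_assoc]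
    rw [Finset.sum_congr rfl fun k _ => h1 k, Finset.sum_comm]
    exact Finset.sum_eq_zero fun b _ => by rw [← Finset.sum_mul, ha1, zero_mul]
  · obtain ⟨ι, _, a', z, hz⟩ := exists_tensor i hβI
    have hβ : β = fun j x => phi i a' (ut w S z j x) := by
      funext j x
      rw [hz]
      rfl
    have hc : ∀ j x, ∑ k, a k * i (u1 w S (y k j) x) =
        ∑ k, a' k * i (u1 w S ((z k ᵥ* dgM w d0) j) x) := by
      intro j x
      have h1 := congrFun (congrFun hβ3 j) x
      rw [hβ, mv_nat, mv_ut] at h1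
      exact h1.symm
    -- the linear form
    let ψ : (Fin n → RR G) →+ RR S := AddMonoidHom.mk'
      (fun y => φ ⟨g1 (y ᵥ* dgM w d1), hg2 y⟩) (fun y y' => by
        rw [← map_add]
        congr 1
        apply Subtype.ext
        change g1 ((y + y') ᵥ* dgM w d1) = g1 (y ᵥ* dgM w d1) + g1 (y' ᵥ* dgM w d1)
        rw [Matrix.add_vecMul, map_add])
    have hψ : ∀ y, ψ y = φ ⟨g1 (y ᵥ* dgM w d1), hg2 y⟩ := fun _ => rfl
    have hψs : ∀ (r : RR S) y, ψ (inc S r • y) = r • ψ y := by
      intro r y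
      rw [hψ, hψ, ← map_smul]
      congr 1
      apply Subtype.ext
      change g1 ((inc S r • y) ᵥ* dgM w d1) = r • g1 (y ᵥ* dgM w d1)
      rw [smul_vm, hg1]
    have key := tensor_inj (w := w) i (Sum.elim a fun k => -a' k)
      (Sum.elim y fun k => z k ᵥ* dgM w d0) (fun j x => by
        rw [Fintype.sum_sum_type]
        simp only [Sum.elim_inl, Sum.elim_inr, neg_mul, Finset.sum_neg_distrib]
        rw [hc, add_neg_cancel]) ψ hψs
    rw [Fintype.sum_sum_type] at key
    simp only [Sum.elim_inl, Sum.elim_inr] at key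
    have h0 : ∀ k, ψ (z k ᵥ* dgM w d0) = 0 := by
      intro k
      rw [hψ, ← map_zero φ]
      congr 1
      apply Subtype.ext
      change g1 (z k ᵥ* dgM w d0 ᵥ* dgM w d1) = 0
      rw [vm_vm, ← dgM_mul, hF.low.dd, dgM_zero, Matrix.vecMul_zero, map_zero]
    have key' : ∑ k, a k * i (ψ (y k)) = 0 := by
      rw [← key]
      have h1 : ∑ k, -a' k * i (ψ (z k ᵥ* dgM w d0)) = 0 :=
        Finset.sum_eq_zero fun k _ => by rw [h0, map_zero, mul_zero]
      rw [h1, add_zero]
    have h2 : ∀ k, φ (x k) = ψ (y k) + ∑ b, (x k).1 b * φ ⟨kk b, hkk b⟩ := by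
      intro k
      rw [hψ]
      have h3 : x k = ⟨g1 (y k ᵥ* dgM w d1), hg2 (y k)⟩ + ∑ b, (x k).1 b • ⟨kk b, hkk b⟩ := by
        apply Subtype.ext
        rw [Submodule.coe_add, Submodule.coe_sum]
        change (x k).1 = g1 (y k ᵥ* dgM w d1) + ∑ b, (x k).1 b • kk b
        rw [hy2]
        exact hx _ (x k).2
      conv_lhs => rw [h3]
      rw [map_add, map_sum]
      congr 1
      exact Finset.sum_congr rfl fun b _ => map_smul _ _ _
    have h4 : ∀ k, a k * i (φ (x k)) = a k * i (ψ (y k)) +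
        ∑ b, (a k * i ((x k).1 b)) * i (φ ⟨kk b, hkk b⟩) := by
      intro k
      rw [h2, map_add, mul_add, map_sum, Finset.mul_sum]
      congr 1
      exact Finset.sum_congr rfl fun b _ => by rw [map_mul, mul_assoc]
    rw [Finset.sum_congr rfl fun k _ => h4 k, Finset.sum_add_distrib, key', zero_add,
      Finset.sum_comm]
    exact Finset.sum_eq_zero fun b _ => by rw [← Finset.sum_mul, ha1, zero_mul]

/-- the linear conditions -/
def LL {D : Type} [Ring D] {N : ℕ} (i : RR S →+* D) (X Y : Fin m → Fin N → RR S) :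
    (Fin N → D) →ₗ[D] (Fin m → D) × (Fin m → D) where
  toFun a := (fun b => phi i a (X b), fun b => phi i a (Y b))
  map_add' a a' := by
    refine Prod.ext (funext fun b => ?_) (funext fun b => ?_)
    · change phi i (a + a') _ = phi i a _ + phi i a' _
      simp only [phi_apply, Pi.add_apply, add_mul, Finset.sum_add_distrib]
    · change phi i (a + a') _ = phi i a _ + phi i a' _
      simp only [phi_apply, Pi.add_apply, add_mul, Finset.sum_add_distrib]
  map_smul' r a := by
    refine Prod.ext (funext fun b => ?_) (funext fun b => ?_)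
    · change phi i (r • a) _ = r * phi i a _
      simp only [phi_apply, Pi.smul_apply, smul_eq_mul, mul_assoc, Finset.mul_sum]
    · change phi i (r • a) _ = r * phi i a _
      simp only [phi_apply, Pi.smul_apply, smul_eq_mul, mul_assoc, Finset.mul_sum]

theorem mem_ker_LL {D : Type} [Ring D] {N : ℕ} {i : RR S →+* D} {X Y : Fin m → Fin N → RR S}
    {a : Fin N → D} : a ∈ LinearMap.ker (LL i X Y) ↔
      (∀ b, phi i a (X b) = 0) ∧ ∀ b, phi i a (Y b) = 0 := by
  rw [LinearMap.mem_ker]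
  constructor
  · intro h
    exact ⟨fun b => congrFun (congrArg Prod.fst h) b, fun b => congrFun (congrArg Prod.snd h) b⟩
  · rintro ⟨h1, h2⟩
    exact Prod.ext (funext h1) (funext h2)

/-- **The rank of the second syzygy.** -/
theorem rank_bound {D : Type} [DivisionRing D] (hF : Full w e0 e1 e2 e3 d0 d1 d2) (hOE : OE G)
    [hG : Group.FG G]
    (hGi : Infinite G) (hS : ∃ s ∈ S, s ≠ 1) (h : Fin m → S)
    (hgen : Subgroup.closure (Set.range h) = ⊤) (i : RR S →+* D) (hi : Function.Injective i)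
    (x : Fin (2 * m + 1) → LinearMap.ker (bd h)) :
    ∃ a : Fin (2 * m + 1) → D, a ≠ 0 ∧
      ∀ φ : LinearMap.ker (bd h) →ₗ[RR S] RR S, ∑ k, a k * i (φ (x k)) = 0 := by
  obtain ⟨ε, hε, ⟨u, hu, hεu⟩, hεd, hεex⟩ := hF.low.aug
  have ht : ∀ b, ∃ t, t ᵥ* d0 = gof (h b : G) • u - u := fun b =>
    hεex (gof (h b : G) • u - u) (by rw [Matrix.sub_vecMul, smul_vm, hu])
      (by rw [map_sub, hε, sub_self])
  choose t ht using ht
  obtain ⟨y, hy1, hpk⟩ := package hF h hgen x
  have hLk : LinearMap.ker (LL i (fun b k => (x k).1 b) (fun b => evb (ut w S y) (t b))) ≠ ⊥ := by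
    refine LinearMap.ker_ne_bot_of_finrank_lt ?_
    rw [Module.finrank_prod, Module.finrank_fin_fun, Module.finrank_fin_fun]
    omega
  obtain ⟨a, ha, ha0⟩ := Submodule.exists_mem_ne_zero_of_ne_bot hLk
  obtain ⟨ha1, ha2⟩ := mem_ker_LL.1 ha
  obtain ⟨hcd, hfin⟩ := hpk i a ha1
  refine ⟨a, ha0, ?_⟩
  -- the cochain
  have hcI : ∀ j, (fun z => phi i a (ut w S y j z)) ∈ Ind w i := fun j => phi_mem i a y j
  have hce : mv e1 (fun j z => phi i a (ut w S y j z)) = fun j z => phi i a (ut w S y j z) := by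
    rw [mv_nat, mv_ut]
    funext j z
    unfold ut
    simp only [hy1]
  obtain ⟨β, hβ1, hβ2, hβ3⟩ := cobound hF.low h hgen hε hu hεu hεd hεex ht
    (fun j => (hcI j).1) hce hcd (fun b => by rw [evb_nat]; exact ha2 b)
  have hd : ∀ j, mv d0 β j ∈ Ind w i := fun j => by rw [hβ3]; exact hcI j
  have hf : evf β u ∈ EqS S (aD w i) := evf_mem (stable_EqS _ _) hβ1 u
  have hfI : evf β u ∈ Ind w i := by
    refine ends_zero hOE hGi hS i hi hf fun g => ?_
    obtain ⟨y, hy⟩ := hεex (gof g • u - u) (by rw [Matrix.sub_vecMul, smul_vm, hu])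
      (by rw [map_sub, hε, sub_self])
    have h1 : tr D g (evf β u) - evf β u = evf (mv d0 β) y := by
      rw [← evf_vecMul, hy, evf_sub, evf_smul, rho_of]
    have h2 : evf (mv d0 β) y ∈ Ind w i := evf_mem (stable_Ind i) hd y
    rw [← h1] at h2
    obtain ⟨F, hF, h3⟩ := h2.2
    refine hF.subset ?_
    rintro _ ⟨x, hx, rfl⟩
    refine h3 x ?_
    rw [Pi.sub_apply, tr_apply, sub_ne_zero]
    exact hx
  exact hfin β (mem_ind hF.low i hu hεu hεex hβ2 hd hfI) hβ3

/-- the case of the trivial group -/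
theorem finite_triv (hS : ∀ s ∈ S, s = 1) (h : Fin m → S) :
    Module.Finite (RR S) (LinearMap.ker (bd h)) := by
  have hsub : Subsingleton S := ⟨fun s t => Subtype.ext (by rw [hS s s.2, hS t t.2])⟩
  have hfin : Module.Finite ℤ (RR S) := by
    refine Module.Finite.equiv (M := S →₀ ℤ)
      ((MonoidAlgebra.coeffAddEquiv (R := ℤ) (M := S)).symm.toIntLinearEquiv)
  have h1 : IsNoetherian ℤ (Fin m → RR S) := inferInstance
  have h2 : Module.Finite ℤ (LinearMap.ker (bd h)) := by
    exact Module.Finite.of_injective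
      ((LinearMap.ker (bd h)).subtype.toAddMonoidHom.toIntLinearMap) Subtype.val_injective
  exact Module.Finite.of_restrictScalars_finite ℤ (RR S) (LinearMap.ker (bd h))

/-- **Finite generation of the second syzygy.** -/
theorem finite_ker {D : Type} [DivisionRing D] (hF : Full w e0 e1 e2 e3 d0 d1 d2)
    (hex2 : ∀ v, v ᵥ* e2 = v → v ᵥ* d1 = 0 → ∃ u, u ᵥ* d2 = v) (hOE : OE G) [Group.FG G]
    [hSi : Infinite (G ⧸ S)] (h : Fin m → S)
    (hgen : Subgroup.closure (Set.range h) = ⊤) (i : RR S →+* D) (hi : Function.Injective i) :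
    Module.Finite (RR S) (LinearMap.ker (bd h)) := by
  by_cases hS : ∃ s ∈ S, s ≠ 1
  · have hGi : Infinite G := by
      by_contra hcon
      rw [not_infinite_iff_finite] at hcon
      exact not_finite (G ⧸ S)
    exact finite_of_rank (projective_ker hF hex2 h hgen) i hi (2 * m)
      (rank_bound hF hOE hGi hS h hgen i hi)
  · push Not at hS
    exact finite_triv hS h

end

end Pool.Agent.H26.PD.PK
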