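import Pool.Agent.H26.PK.Rank
import Pool.Agent.H26.PN.Main

/-!
Finite generation of the second syzygy passes to overgroups of finite index.
-/

set_option autoImplicit false
set_option linter.unusedSectionVars false

namespace Pool.Agent.H26.PD.PK

open Pool.Agent.Helper386.PD3 Pool.Agent.H26.PD.PN
open scoped Classical Matrix

noncomputable section

variable {T : Type} [Group T] {m : ℕ}

/-- the augmentation ideal -/
def AI (T : Type) [Group T] : Submodule (RR T) (RR T) where
  carrier := {r | eps r = 0}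
  add_mem' := by
    intro a b ha hb
    rw [Set.mem_ofPred_eq] at *
    rw [map_add, ha, hb, add_zero]
  zero_mem' := map_zero _
  smul_mem' := by
    intro c a ha
    rw [Set.mem_ofPred_eq] at *
    rw [smul_eq_mul, map_mul, ha, mul_zero]

theorem mem_AI {r : RR T} : r ∈ AI T ↔ eps r = 0 := Iff.rfl

theorem bd_mem (h : Fin m → T) (x : Fin m → RR T) : bd h x ∈ AI T := by
  rw [mem_AI, bd_apply, map_sum]
  exact Finset.sum_eq_zero fun b _ => by
    rw [map_mul, map_sub, eps_of, map_one, sub_self, mul_zero]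

/-- the boundary map onto the augmentation ideal -/
def bdA (h : Fin m → T) : (Fin m → RR T) →ₗ[RR T] AI T := (bd h).codRestrict (AI T) (bd_mem h)

theorem bdA_surj (h : Fin m → T) (hgen : Subgroup.closure (Set.range h) = ⊤) :
    Function.Surjective (bdA h) := by
  rintro ⟨r, hr⟩
  obtain ⟨z, hz⟩ := bd_surj' h hgen hr
  exact ⟨z, Subtype.ext hz⟩

theorem ker_bdA (h : Fin m → T) : LinearMap.ker (bdA h) = LinearMap.ker (bd h) :=
  LinearMap.ker_codRestrict _ _ _

/-- the second syzygy is finitely generated -/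
def FGK (T : Type) [Group T] : Prop :=
  ∃ (m : ℕ) (h : Fin m → T), Subgroup.closure (Set.range h) = ⊤ ∧ (LinearMap.ker (bd h)).FG

theorem FGK.fp (hT : FGK T) : Module.FinitePresentation (RR T) (AI T) := by
  obtain ⟨m, h, hgen, hfg⟩ := hT
  exact Module.finitePresentation_of_surjective (bdA h) (bdA_surj h hgen) (by rwa [ker_bdA])

theorem FGK.equiv {A B : Type} [Group A] [Group B] (e : A ≃* B) (hA : FGK A) : FGK B := by
  obtain ⟨m, h, hgen, F, hF⟩ := hA
  have hpf : ∀ r, pf e.toMonoidHom (pf e.symm.toMonoidHom r) = r := by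
    intro r
    induction r using rr_ind with
    | h1 g =>
      rw [pf_of, pf_of]
      congr 1
      exact e.apply_symm_apply g
    | h2 x y hx hy => rw [map_add, map_add, hx, hy]
    | h3 x hx => rw [map_neg, map_neg, hx]
  have hbd : ∀ x, bd (fun k => e (h k)) (vmap (pf e.toMonoidHom) x) =
      pf e.toMonoidHom (bd h x) := by
    intro x
    rw [bd_apply, bd_apply, map_sum]
    refine Finset.sum_congr rfl fun k _ => ?_
    rw [map_mul, map_sub, pf_of, map_one]
    rfl
  have hbd' : ∀ x, bd h (vmap (pf e.symm.toMonoidHom) x) =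
      pf e.symm.toMonoidHom (bd (fun k => e (h k)) x) := by
    intro x
    rw [bd_apply, bd_apply, map_sum]
    refine Finset.sum_congr rfl fun k _ => ?_
    rw [map_mul, map_sub, pf_of, map_one]
    congr 3
    exact (e.symm_apply_apply (h k)).symm
  refine ⟨m, fun k => e (h k), ?_, F.image (vmap (pf e.toMonoidHom)), ?_⟩
  · have h1 : Set.range (fun k => e (h k)) = e.toMonoidHom '' Set.range h := by
      rw [← Set.range_comp]
      rfl
    rw [h1, ← MonoidHom.map_closure, hgen, ← MonoidHom.range_eq_map]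
    exact MonoidHom.range_eq_top.2 e.surjective
  · apply le_antisymm
    · rw [Submodule.span_le]
      intro y hy
      rw [Finset.coe_image] at hy
      obtain ⟨x, hx, rfl⟩ := hy
      rw [SetLike.mem_coe, LinearMap.mem_ker, hbd]
      have h1 : x ∈ LinearMap.ker (bd h) := by
        rw [← hF]
        exact Submodule.subset_span hx
      rw [LinearMap.mem_ker.1 h1, map_zero]
    · intro y hy
      have h1 : vmap (pf e.symm.toMonoidHom) y ∈ Submodule.span (RR A) (F : Set (Fin m → RR A)) := by
        rw [hF, LinearMap.mem_ker, hbd', LinearMap.mem_ker.1 hy, map_zero]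
      have h2 : ∀ x ∈ Submodule.span (RR A) (F : Set (Fin m → RR A)),
          vmap (pf e.toMonoidHom) x ∈ Submodule.span (RR B)
            ((F.image (vmap (pf e.toMonoidHom)) : Finset (Fin m → RR B)) : Set (Fin m → RR B)) := by
        intro x hx
        induction hx using Submodule.span_induction with
        | mem x hx =>
          refine Submodule.subset_span ?_
          rw [Finset.coe_image]
          exact ⟨x, hx, rfl⟩
        | zero =>
          have h3 : vmap (pf e.toMonoidHom) (0 : Fin m → RR A) = 0 := by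
            funext k
            exact map_zero _
          rw [h3]
          exact Submodule.zero_mem _
        | add x y _ _ hx hy =>
          rw [vmap_add]
          exact Submodule.add_mem _ hx hy
        | smul r x _ hx =>
          rw [vmap_smul]
          exact Submodule.smul_mem _ _ hx
      have h3 := h2 _ h1
      have h4 : vmap (pf e.toMonoidHom) (vmap (pf e.symm.toMonoidHom) y) = y := by
        funext k
        exact hpf _
      rwa [h4] at h3

/-! ## Overgroups of finite index -/

variable (T₀ : Subgroup T) [T₀.FiniteIndex]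

/-- an equivariant map between the group rings, compatible with the augmentations -/
def psi0 : Rs T₀ (RR T) →ₗ[RR T₀] RR T₀ where
  toFun y := ∑ q, rsEquiv T₀ y q
  map_add' y y' := by
    rw [map_add, ← Finset.sum_add_distrib]
    rfl
  map_smul' r y := by
    rw [map_smul, RingHom.id_apply, Finset.smul_sum]
    rfl

theorem eps_psi0 (y : RR T) : eps (psi0 T₀ (toRs T₀ y)) = eps y := by
  have h1 := sum_out' T₀ y
  conv_rhs => rw [← h1]
  rw [map_sum]
  change eps (∑ q, rsEquiv T₀ (toRs T₀ y) q) = _
  rw [map_sum]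
  refine Finset.sum_congr rfl fun q _ => ?_
  rw [map_mul, eps_of, mul_one, eps_inc]
  rfl

theorem eps_inc' (r : RR T₀) : eps (inc T₀ r) = eps r := eps_inc T₀ r

theorem rhoI_mem (x : Rs T₀ (RR T) × AI T₀) :
    (toRs T₀).symm x.1 - inc T₀ (psi0 T₀ x.1) + inc T₀ x.2.1 ∈ AI T := by
  rw [mem_AI, map_add, map_sub, eps_inc, eps_inc]
  have h1 := eps_psi0 T₀ ((toRs T₀).symm x.1)
  rw [AddEquiv.apply_symm_apply] at h1
  rw [h1, sub_self, zero_add]
  exact x.2.2

/-- the augmentation ideal of the subgroup inside the one of the group -/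
def rhoI : (Rs T₀ (RR T) × AI T₀) →ₗ[RR T₀] Rs T₀ (AI T) where
  toFun x := toRs T₀ ⟨(toRs T₀).symm x.1 - inc T₀ (psi0 T₀ x.1) + inc T₀ x.2.1, rhoI_mem T₀ x⟩
  map_add' x y := by
    apply (toRs T₀).symm.injective
    apply Subtype.ext
    change (toRs T₀).symm (x.1 + y.1) - inc T₀ (psi0 T₀ (x.1 + y.1)) + inc T₀ (x.2.1 + y.2.1) =
      ((toRs T₀).symm x.1 - inc T₀ (psi0 T₀ x.1) + inc T₀ x.2.1) +
      ((toRs T₀).symm y.1 - inc T₀ (psi0 T₀ y.1) + inc T₀ y.2.1)
    rw [map_add, map_add, map_add, map_add]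
    abel
  map_smul' r x := by
    rw [RingHom.id_apply]
    apply (toRs T₀).symm.injective
    apply Subtype.ext
    change inc T₀ r * (toRs T₀).symm x.1 - inc T₀ (psi0 T₀ (r • x.1)) + inc T₀ (r * x.2.1) =
      inc T₀ r * ((toRs T₀).symm x.1 - inc T₀ (psi0 T₀ x.1) + inc T₀ x.2.1)
    rw [map_smul, smul_eq_mul, map_mul, map_mul, mul_add, mul_sub]

theorem rhoI_apply (x : Rs T₀ (RR T) × AI T₀) : ((toRs T₀).symm (rhoI T₀ x)).1 =
    (toRs T₀).symm x.1 - inc T₀ (psi0 T₀ x.1) + inc T₀ x.2.1 := rfl

theorem inc_injective : Function.Injective (inc T₀) := by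
  intro a b h
  rw [← prH_inc T₀ a, h, prH_inc]

theorem fp_rs (h0 : Module.FinitePresentation (RR T₀) (AI T₀)) :
    Module.FinitePresentation (RR T₀) (Rs T₀ (AI T)) := by
  have h1 : Module.FinitePresentation (RR T₀) (Rs T₀ (RR T)) :=
    Module.finitePresentation_of_projective _ _
  refine Module.finitePresentation_of_surjective (rhoI T₀) ?_ ?_
  · intro y
    have hy : eps ((toRs T₀).symm y).1 = 0 := ((toRs T₀).symm y).2
    refine ⟨(toRs T₀ ((toRs T₀).symm y).1, ⟨psi0 T₀ (toRs T₀ ((toRs T₀).symm y).1), ?_⟩), ?_⟩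
    · rw [mem_AI, eps_psi0, hy]
    · apply (toRs T₀).symm.injective
      apply Subtype.ext
      rw [rhoI_apply]
      exact sub_add_cancel _ _
  · refine ⟨{(toRs T₀ (1 : RR T), ⟨psi0 T₀ (toRs T₀ (1 : RR T)) - 1, by
      rw [mem_AI, map_sub, eps_psi0, map_one, map_one, sub_self]⟩)}, ?_⟩
    rw [Finset.coe_singleton]
    apply le_antisymm
    · rw [Submodule.span_singleton_le_iff_mem, LinearMap.mem_ker]
      apply (toRs T₀).symm.injective
      apply Subtype.ext
      rw [rhoI_apply]
      change (1 : RR T) - inc T₀ (psi0 T₀ (toRs T₀ (1 : RR T))) +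
        inc T₀ (psi0 T₀ (toRs T₀ (1 : RR T)) - 1) = 0
      have h7 : inc T₀ (1 : RR T₀) = 1 := (inc T₀).map_one
      rw [map_sub, h7]
      abel
    · rintro ⟨y, z⟩ hyz
      rw [Submodule.mem_span_singleton]
      refine ⟨psi0 T₀ y - z.1, ?_⟩
      have h2 : (toRs T₀).symm y - inc T₀ (psi0 T₀ y) + inc T₀ z.1 = 0 := by
        have h3 := rhoI_apply T₀ (y, z)
        rw [LinearMap.mem_ker.1 hyz] at h3
        exact h3.symm
      have h3 : (toRs T₀).symm y = inc T₀ (psi0 T₀ y - z.1) := by
        rw [map_sub]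
        rw [← sub_eq_zero, ← h2]
        abel
      have h4 : y = (psi0 T₀ y - z.1) • toRs T₀ (1 : RR T) := by
        apply (toRs T₀).symm.injective
        rw [h3, smul_rs]
        exact (mul_one _).symm
      refine Prod.ext h4.symm (Subtype.ext ?_)
      change (psi0 T₀ y - z.1) * (psi0 T₀ (toRs T₀ (1 : RR T)) - 1) = z.1
      have h5 : psi0 T₀ y = (psi0 T₀ y - z.1) * psi0 T₀ (toRs T₀ (1 : RR T)) := by
        conv_lhs => rw [h4]
        rw [map_smul, smul_eq_mul]
      rw [mul_sub, ← h5, mul_one]
      abel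

/-- **Overgroups of finite index.** -/
theorem fg_ker_of_finiteIndex (hT : FGK T₀) (h : Fin m → T)
    (hgen : Subgroup.closure (Set.range h) = ⊤) : (LinearMap.ker (bd h)).FG := by
  have h1 := fp_rs T₀ hT.fp
  have h2 : (LinearMap.ker (rsMap T₀ (bdA h))).FG :=
    Module.FinitePresentation.fg_ker (rsMap T₀ (bdA h)) (bdA_surj h hgen)
  obtain ⟨F, hF⟩ := h2
  have hk : ∀ x : Rs T₀ (Fin m → RR T), x ∈ LinearMap.ker (rsMap T₀ (bdA h)) ↔
      (toRs T₀).symm x ∈ LinearMap.ker (bd h) := by
    intro x
    rw [← ker_bdA]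
    exact Iff.rfl
  refine ⟨F.image (toRs T₀).symm, ?_⟩
  apply le_antisymm
  · rw [Submodule.span_le]
    intro y hy
    rw [Finset.coe_image] at hy
    obtain ⟨x, hx, rfl⟩ := hy
    rw [SetLike.mem_coe, ← hk, ← hF]
    exact Submodule.subset_span hx
  · intro y hy
    have h3 : toRs T₀ y ∈ Submodule.span (RR T₀) (F : Set (Rs T₀ (Fin m → RR T))) := by
      rw [hF, hk]
      exact hy
    have h4 : ∀ x ∈ Submodule.span (RR T₀) (F : Set (Rs T₀ (Fin m → RR T))),
        (toRs T₀).symm x ∈ Submodule.span (RR T)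
          ((F.image (toRs T₀).symm : Finset (Fin m → RR T)) : Set (Fin m → RR T)) := by
      intro x hx
      induction hx using Submodule.span_induction with
      | mem x hx =>
        refine Submodule.subset_span ?_
        rw [Finset.coe_image]
        exact ⟨x, hx, rfl⟩
      | zero => exact Submodule.zero_mem _
      | add x y _ _ hx hy => exact Submodule.add_mem _ hx hy
      | smul r x _ hx => exact Submodule.smul_mem _ (inc T₀ r) hx
    exact h4 _ h3

end

end Pool.Agent.H26.PD.PK
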